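import Mathlib

/-!
# Counting lemmas for the lower bound on sampling correctors
-/

namespace Pool.Agent.H525R5.Corr

open Finset Function
open scoped Classical

noncomputable section

/-- indicator of a proposition -/
def ind (P : Prop) : ℝ := if P then 1 else 0

lemma ind_nonneg (P : Prop) : 0 ≤ ind P := by unfold ind; split_ifs <;> norm_num
lemma ind_le_one (P : Prop) : ind P ≤ 1 := by unfold ind; split_ifs <;> norm_num
lemma ind_true {P : Prop} (h : P) : ind P = 1 := by unfold ind; simp [h]
lemma ind_false {P : Prop} (h : ¬ P) : ind P = 0 := by unfold ind; simp [h]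
lemma ind_mono {P Q : Prop} (h : P → Q) : ind P ≤ ind Q := by
  by_cases hP : P
  · rw [ind_true hP, ind_true (h hP)]
  · rw [ind_false hP]; exact ind_nonneg Q

lemma sum_ind {A : Type*} [Fintype A] (P : A → Prop) :
    ∑ a, ind (P a) = ((univ.filter P).card : ℝ) := by
  unfold ind; rw [Finset.sum_boole]

/-- averaging over one coordinate -/
lemma sum_update {ι A : Type*} [Fintype ι] [DecidableEq ι] [Fintype A] (l : ι) (F : (ι → A) → ℝ) :
    ∑ c : ι → A, ∑ a : A, F (update c l a) = Fintype.card A * ∑ c, F c := by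
  let e : (ι → A) × A ≃ (ι → A) × A :=
    { toFun := fun p => (update p.1 l p.2, p.1 l)
      invFun := fun p => (update p.1 l p.2, p.1 l)
      left_inv := by intro p; simp
      right_inv := by intro p; simp }
  have h1 : ∑ c : ι → A, ∑ a : A, F (update c l a) = ∑ p : (ι → A) × A, F (e p).1 := by
    rw [Fintype.sum_prod_type]; rfl
  have h2 : ∑ p : (ι → A) × A, F (e p).1 = ∑ p : (ι → A) × A, F p.1 :=
    Equiv.sum_comp e (fun p => F p.1)
  have h3 : ∑ p : (ι → A) × A, F p.1 = Fintype.card A * ∑ c, F c := by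
    rw [Fintype.sum_prod_type]
    simp [Finset.mul_sum]
  rw [h1, h2, h3]

/-- restriction to the image of an injective map is uniform -/
lemma sum_extend {ι κ A : Type*} [Fintype ι] [DecidableEq ι] [Fintype κ] [DecidableEq κ]
    [Fintype A] (I : ι → κ)
    (hI : Injective I) (G : (ι → A) → ℝ) :
    (Fintype.card (ι → A) : ℝ) * ∑ σ : κ → A, G (σ ∘ I)
      = Fintype.card (κ → A) * ∑ x : ι → A, G x := by
  have key : ∀ p : (κ → A) × (ι → A),
      ((extend I (p.1 ∘ I) (extend I p.2 p.1), (extend I p.2 p.1) ∘ I) :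
        (κ → A) × (ι → A)) = p := by
    intro p
    refine Prod.ext ?_ ?_
    · funext k
      show extend I (p.1 ∘ I) (extend I p.2 p.1) k = p.1 k
      by_cases hk : ∃ l, I l = k
      · obtain ⟨l, rfl⟩ := hk
        rw [hI.extend_apply]; rfl
      · rw [extend_apply' _ _ _ hk, extend_apply' _ _ _ hk]
    · funext l
      show extend I p.2 p.1 (I l) = p.2 l
      rw [hI.extend_apply]
  let e : (κ → A) × (ι → A) ≃ (κ → A) × (ι → A) :=
    { toFun := fun p => (extend I p.2 p.1, p.1 ∘ I)
      invFun := fun p => (extend I p.2 p.1, p.1 ∘ I)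
      left_inv := fun p => key p
      right_inv := fun p => key p }
  have h1 : ∑ p : (κ → A) × (ι → A), G p.2 = Fintype.card (κ → A) * ∑ x : ι → A, G x := by
    rw [Fintype.sum_prod_type]; simp
  have h2 : ∑ p : (κ → A) × (ι → A), G ((e p).1 ∘ I)
      = ∑ p : (κ → A) × (ι → A), G (p.1 ∘ I) :=
    Equiv.sum_comp e (fun p => G (p.1 ∘ I))
  have h3 : ∑ p : (κ → A) × (ι → A), G ((e p).1 ∘ I) = ∑ p : (κ → A) × (ι → A), G p.2 := by
    refine Finset.sum_congr rfl fun p _ => ?_
    congr 1
    funext l; simp [e, hI.extend_apply]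
  have h4 : ∑ p : (κ → A) × (ι → A), G (p.1 ∘ I)
      = (Fintype.card (ι → A) : ℝ) * ∑ σ : κ → A, G (σ ∘ I) := by
    rw [Fintype.sum_prod_type]; simp [Finset.mul_sum]
  rw [← h4, ← h2, h3, h1]

/-- a bound for the number of functions with a property, coordinate by coordinate -/
lemma count_update_le {ι A : Type*} [Fintype ι] [DecidableEq ι] [Fintype A] (l : ι) (P : (ι → A) → Prop)
    (B : ℝ) (h : ∀ c, ∑ a : A, ind (P (update c l a)) ≤ B) :
    Fintype.card A * ∑ c : ι → A, ind (P c) ≤ Fintype.card (ι → A) * B := by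
  rw [← sum_update l (fun c => ind (P c))]
  refine (Finset.sum_le_sum fun c _ => h c).trans ?_
  simp

end

end Pool.Agent.H525R5.Corr
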