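import Pool.Agent.H525R5.Corr.Lower

/-!
# No corrector has rate below `2 * (1 - δ)`
-/

namespace Pool.Agent.H525R5.Corr

open Finset Function MeasureTheory
open scoped Classical ENNReal

noncomputable section

variable {d w n L : ℕ} [Fact (2 ≤ d)] [Fact (1 ≤ w)]

lemma markov (M : Corrector n) (r : ℝ) (hr : 0 ≤ r) (hM : M.RateLe (1 / d) r) (θ : Th d w n)
    (k : ℕ) (hk : 0 < k) :
    (M.law (inst θ)).real {z | k ≤ M.need 0 z} ≤ r / k := by
  have h1 := hM (inst θ) (admissible_inst θ) 0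
  have h2 : (k : ℝ≥0∞) * M.law (inst θ) {z | (k : ℝ≥0∞) ≤ (M.need 0 z : ℝ≥0∞)}
      ≤ ∫⁻ z, (M.need 0 z : ℝ≥0∞) ∂(M.law (inst θ)) := by
    refine mul_meas_ge_le_lintegral ?_ _
    exact (measurable_of_countable (fun m : ℕ => (m : ℝ≥0∞))).comp (M.need_meas 0)
  have h3 : {z : M.Ω × (ℕ → Pt n) | (k : ℝ≥0∞) ≤ (M.need 0 z : ℝ≥0∞)}
      = {z | k ≤ M.need 0 z} := by
    ext z; simp
  rw [h3] at h2
  have hk' : (0 : ℝ) < k := by exact_mod_cast hk
  rw [le_div_iff₀ hk', mul_comm]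
  have h4 := ENNReal.toReal_mono ENNReal.ofReal_ne_top (h2.trans h1)
  rw [ENNReal.toReal_mul, ENNReal.toReal_natCast, ENNReal.toReal_ofReal hr] at h4
  exact h4

/-- The inequality behind the lower bound. -/
lemma core (M : Corrector n) (C δ r : ℝ) (hr : 0 ≤ r) (hδ1 : δ ≤ 1)
    (hC : M.Corrects C δ (1 / d)) (hR : M.RateLe (1 / d) r) (hL : 1 ≤ L) (hn : 0 < n)
    (hρ : 0 ≤ 1 - 2 * (C * (1 / d))) :
    (1 - 2 * (d * w) ^ 2 / n) * ((1 - 2 * (C * (1 / d))) * (1 - δ))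
      ≤ r / 2 + err d w n L + d * (r / (L + 1)) := by
  have hd : 2 ≤ d := Fact.out
  have hd0 : (0 : ℝ) < d := by exact_mod_cast (by omega : 0 < d)
  have hn0 : (0 : ℝ) < n := by exact_mod_cast hn
  set T : ℝ := (Fintype.card (Th d w n) : ℝ) with hT
  have hT0 : 0 < T := by
    have : Nonempty (Fin n) := ⟨⟨0, hn⟩⟩
    rw [hT]; exact_mod_cast Fintype.card_pos
  -- averages
  have h1 := avg_ineq (d := d) (w := w) M hL hn
  set x : Th d w n → ℝ := fun θ =>
    (M.law (inst θ)).real {z | M.need 0 z ≤ L ∧ M.out 0 z ∈ Hol θ} with hx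
  set y : Th d w n → ℝ := fun θ => (M.law (inst θ)).real {z | 2 ≤ M.need 0 z} with hy
  have h2 : (d : ℝ) * ∑ θ, x θ ≤ ∑ θ, y θ + T * err d w n L := by
    have e1 : ∀ (θ : Th d w n) (E : Set (M.Ω × (ℕ → Pt n))),
        M.law (inst θ) E = ENNReal.ofReal ((M.law (inst θ)).real E) :=
      fun θ E => (ofReal_measureReal (measure_ne_top _ _)).symm
    simp only [e1] at h1
    rw [← ENNReal.ofReal_sum_of_nonneg (fun θ _ => measureReal_nonneg),
      ← ENNReal.ofReal_sum_of_nonneg (fun θ _ => measureReal_nonneg),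
      ← ENNReal.ofReal_mul (by positivity), ← ENNReal.ofReal_add
      (Finset.sum_nonneg fun θ _ => measureReal_nonneg)
      (mul_nonneg (by positivity) err_nonneg)] at h1
    exact (ENNReal.ofReal_le_ofReal_iff (add_nonneg
      (Finset.sum_nonneg fun θ _ => measureReal_nonneg)
      (mul_nonneg (by positivity) err_nonneg))).mp h1
  have h3 : ∀ θ, y θ ≤ r / 2 := by
    intro θ
    have := markov M r hr hR θ 2 (by norm_num)
    simpa using this
  have hx0 : ∀ θ, 0 ≤ x θ := fun θ => measureReal_nonneg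
  -- injective labellings
  have h4 : ∀ θ : Th d w n, Injective θ.1 ∧ Injective θ.2 →
      (1 - 2 * (C * (1 / d))) * (1 - δ) ≤ d * (x θ + r / (L + 1)) := by
    rintro θ ⟨hi1, hi2⟩
    have k1 := hole_prob M C δ hC θ hi1 hi2
    have k2 : M.law (inst θ) {z | M.out 0 z ∈ Hol θ}
        ≤ M.law (inst θ) {z | M.need 0 z ≤ L ∧ M.out 0 z ∈ Hol θ}
          + M.law (inst θ) {z | L + 1 ≤ M.need 0 z} := by
      refine (measure_mono ?_).trans (measure_union_le _ _)
      intro z hz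
      by_cases hh : M.need 0 z ≤ L
      · exact Or.inl ⟨hh, hz⟩
      · exact Or.inr (by show L + 1 ≤ M.need 0 z; omega)
    have k3 := ENNReal.toReal_mono (ENNReal.add_ne_top.mpr
      ⟨measure_ne_top _ _, measure_ne_top _ _⟩) (k1.trans k2)
    rw [ENNReal.toReal_mul, ENNReal.toReal_ofReal (div_nonneg hρ hd0.le),
      ENNReal.toReal_ofReal (by linarith), ENNReal.toReal_add (measure_ne_top _ _)
      (measure_ne_top _ _)] at k3
    have k4 := markov M r hr hR θ (L + 1) (by omega)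
    have k5 : (M.law (inst θ) {z | M.need 0 z ≤ L ∧ M.out 0 z ∈ Hol θ}).toReal = x θ := rfl
    have k6 : (M.law (inst θ) {z | L + 1 ≤ M.need 0 z}).toReal
        = (M.law (inst θ)).real {z | L + 1 ≤ M.need 0 z} := rfl
    rw [k5, k6] at k3
    push_cast at k4
    have k7 : (1 - 2 * (C * (1 / d))) / d * (1 - δ) ≤ x θ + r / (L + 1) := by linarith
    have k8 : (1 - 2 * (C * (1 / d))) * (1 - δ)
        = d * ((1 - 2 * (C * (1 / d))) / d * (1 - δ)) := by field_simp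
    rw [k8]
    exact mul_le_mul_of_nonneg_left k7 hd0.le
  set κ : ℝ := (1 - 2 * (C * (1 / d))) * (1 - δ) with hκ
  have hκ0 : 0 ≤ κ := mul_nonneg hρ (by linarith)
  have hrl : 0 ≤ r / (L + 1) := div_nonneg hr (by positivity)
  have h5 : ∀ θ : Th d w n, κ ≤ κ * ind (¬ (Injective θ.1 ∧ Injective θ.2))
      + d * (x θ + r / (L + 1)) := by
    intro θ
    by_cases hi : Injective θ.1 ∧ Injective θ.2
    · rw [ind_false (by simpa using hi), mul_zero, zero_add]
      exact h4 θ hi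
    · rw [ind_true hi, mul_one]
      have : 0 ≤ d * (x θ + r / (L + 1)) := mul_nonneg hd0.le (add_nonneg (hx0 θ) hrl)
      linarith
  have a1 : ∑ _θ : Th d w n, κ = T * κ := by
    rw [Finset.sum_const, Finset.card_univ, nsmul_eq_mul]
  have a2 : ∑ θ : Th d w n, (κ * ind (¬ (Injective θ.1 ∧ Injective θ.2))
      + d * (x θ + r / (L + 1)))
      = κ * ∑ θ : Th d w n, ind (¬ (Injective θ.1 ∧ Injective θ.2))
        + d * (∑ θ, x θ + T * (r / (L + 1))) := by
    rw [Finset.sum_add_distrib]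
    congr 1
    · rw [← Finset.mul_sum]
    · rw [← Finset.mul_sum, Finset.sum_add_distrib]
      congr 2
      rw [Finset.sum_const, Finset.card_univ, nsmul_eq_mul]
  have h6 : T * κ ≤ κ * ∑ θ : Th d w n, ind (¬ (Injective θ.1 ∧ Injective θ.2))
        + d * (∑ θ, x θ + T * (r / (L + 1))) := by
    rw [← a1, ← a2]
    exact Finset.sum_le_sum fun θ _ => h5 θ
  have h7 := sum_not_inj (d := d) (w := w) hn
  have h8 : ∑ θ : Th d w n, ind (¬ (Injective θ.1 ∧ Injective θ.2))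
      ≤ 2 * (d * w) ^ 2 * T / n := by
    rw [le_div_iff₀ hn0]; linarith
  have h9 : ∑ θ, y θ ≤ T * (r / 2) := by
    refine (Finset.sum_le_sum fun θ _ => h3 θ).trans ?_
    rw [Finset.sum_const, Finset.card_univ, nsmul_eq_mul, ← hT]
  have h10 : κ * ∑ θ : Th d w n, ind (¬ (Injective θ.1 ∧ Injective θ.2))
      ≤ κ * (2 * (d * w) ^ 2 * T / n) := mul_le_mul_of_nonneg_left h8 hκ0
  have h11 : T * ((1 - 2 * (d * w) ^ 2 / n) * κ)
      ≤ T * (r / 2 + err d w n L + d * (r / (L + 1))) := by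
    have e1 : T * ((1 - 2 * (d * w) ^ 2 / n) * κ) = T * κ - κ * (2 * (d * w) ^ 2 * T / n) := by
      ring
    rw [e1]
    have e2 : (d : ℝ) * (∑ θ, x θ + T * (r / (L + 1)))
        = d * ∑ θ, x θ + T * (d * (r / (L + 1))) := by ring
    rw [e2] at h6
    linarith
  exact le_of_mul_le_mul_left h11 hT0

omit [Fact (2 ≤ d)] [Fact (1 ≤ w)] in
/-- **Lower bound.** -/
theorem lower (C δ r : ℝ) (hδ0 : 0 ≤ δ) (hδ1 : δ < 1) (hr : r < 2 * (1 - δ)) :
    ∃ (n : ℕ) (ε : ℝ), 0 < ε ∧ ε ≤ 1 ∧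
      ¬ ∃ M : Corrector n, M.Corrects C δ ε ∧ M.RateLe ε r := by
  -- we may assume that `C` and `r` are nonnegative
  set C' : ℝ := max C 0 with hC'
  set r' : ℝ := max r 0 with hr'
  have hC0 : 0 ≤ C' := le_max_right _ _
  have hr0 : 0 ≤ r' := le_max_right _ _
  have hr1 : r' < 2 * (1 - δ) := max_lt hr (by linarith)
  set γ : ℝ := 2 * (1 - δ) - r' with hγ
  have hγ0 : 0 < γ := by rw [hγ]; linarith
  have hγ2 : γ ≤ 2 := by rw [hγ]; linarith
  have hr2 : r' ≤ 2 := by linarith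
  obtain ⟨d, hd⟩ := exists_nat_gt (max 2 (32 * (C' + 1) / γ))
  have hd2' : (2 : ℝ) < d := lt_of_le_of_lt (le_max_left _ _) hd
  have hd2 : 2 ≤ d := by
    have : 2 < d := by exact_mod_cast hd2'
    omega
  have hd0 : (0 : ℝ) < d := by linarith
  have hdC : 32 * (C' + 1) < γ * d := by
    have := lt_of_le_of_lt (le_max_right _ _) hd
    rw [div_lt_iff₀ hγ0] at this
    linarith
  obtain ⟨L, hL⟩ := exists_nat_gt (max 1 (32 * d / γ))
  have hL1' : (1 : ℝ) < L := lt_of_le_of_lt (le_max_left _ _) hL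
  have hL1 : 1 ≤ L := by
    have : 1 < L := by exact_mod_cast hL1'
    omega
  have hLd : 32 * d < γ * L := by
    have := lt_of_le_of_lt (le_max_right _ _) hL
    rw [div_lt_iff₀ hγ0] at this
    linarith
  obtain ⟨w, hw⟩ := exists_nat_gt (max 1 (32 * ((d + 1) * (2 * L ^ 2)) / (γ * d)))
  have hw1' : (1 : ℝ) < w := lt_of_le_of_lt (le_max_left _ _) hw
  have hw1 : 1 ≤ w := by
    have : 1 < w := by exact_mod_cast hw1'
    omega
  have hw0 : (0 : ℝ) < w := by linarith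
  have hwd : 32 * ((d + 1) * (2 * L ^ 2)) < γ * (d * w) := by
    have := lt_of_le_of_lt (le_max_right _ _) hw
    rw [div_lt_iff₀ (by positivity)] at this
    linarith
  obtain ⟨n, hn⟩ := exists_nat_gt (max 1 (32 * ((2 * d ^ 2 * w + L ^ 2 * (2 * L ^ 2 + 2 * L))
    + 2 * (d * w) ^ 2) / γ))
  have hn1' : (1 : ℝ) < n := lt_of_le_of_lt (le_max_left _ _) hn
  have hn0 : 0 < n := by
    have : 1 < n := by exact_mod_cast hn1'
    omega
  have hn0' : (0 : ℝ) < n := by linarith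
  have hnn : 32 * ((2 * d ^ 2 * w + L ^ 2 * (2 * L ^ 2 + 2 * L)) + 2 * (d * w) ^ 2) < γ * n := by
    have := lt_of_le_of_lt (le_max_right _ _) hn
    rw [div_lt_iff₀ hγ0] at this
    linarith
  haveI : Fact (2 ≤ d) := ⟨hd2⟩
  haveI : Fact (1 ≤ w) := ⟨hw1⟩
  refine ⟨n, 1 / d, by positivity, ?_, ?_⟩
  · rw [div_le_one hd0]; linarith
  rintro ⟨M, hM1, hM2⟩
  have hM1' : M.Corrects C' δ (1 / d) := by
    intro p hp
    obtain ⟨D, h1, h2, h3, h4⟩ := hM1 p hp
    refine ⟨D, h1, h2, h3, h4.trans (measure_mono ?_)⟩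
    rintro z ⟨hz1, hz2⟩
    refine ⟨hz1, fun A => (hz2 A).trans ?_⟩
    exact mul_le_mul_of_nonneg_right (le_max_left _ _) (by positivity)
  have hM2' : M.RateLe (1 / d) r' := by
    intro p hp t
    refine (hM2 p hp t).trans (ENNReal.ofReal_le_ofReal (le_max_left _ _))
  have hCd : C' * (1 / d) ≤ γ / 32 := by
    rw [mul_one_div, div_le_div_iff₀ hd0 (by norm_num)]; nlinarith
  have hcore := core (d := d) (w := w) (L := L) M C' δ r' hr0 hδ1.le hM1' hM2' hL1 hn0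
    (by linarith)
  -- the error terms
  have e1 : ((d : ℝ) + 1) * (2 * L ^ 2) / (d * w) ≤ γ / 32 := by
    rw [div_le_div_iff₀ (by positivity) (by norm_num)]; linarith
  have p1 : (0 : ℝ) ≤ 2 * d ^ 2 * w + L ^ 2 * (2 * L ^ 2 + 2 * L) := by positivity
  have p2 : (0 : ℝ) ≤ 2 * ((d : ℝ) * w) ^ 2 := by positivity
  have e2 : (2 * (d : ℝ) ^ 2 * w + L ^ 2 * (2 * L ^ 2 + 2 * L)) / n ≤ γ / 32 := by
    rw [div_le_div_iff₀ hn0' (by norm_num)]; linarith
  have e3 : 2 * ((d : ℝ) * w) ^ 2 / n ≤ γ / 32 := by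
    rw [div_le_div_iff₀ hn0' (by norm_num)]; linarith
  have e4 : (d : ℝ) * (r' / (L + 1)) ≤ γ / 16 := by
    have : (0 : ℝ) < (L : ℝ) + 1 := by positivity
    rw [← mul_div_assoc, div_le_div_iff₀ this (by norm_num)]
    have q1 : (d : ℝ) * r' ≤ d * 2 := mul_le_mul_of_nonneg_left hr2 hd0.le
    nlinarith
  have e5 : err d w n L ≤ γ / 16 := by unfold err; linarith
  have e6 : (1 - γ / 32) * ((1 - γ / 16) * (1 - δ)) ≤
      (1 - 2 * (d * w) ^ 2 / n) * ((1 - 2 * (C' * (1 / d))) * (1 - δ)) := by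
    have q0 : 0 ≤ 1 - δ := by linarith
    refine mul_le_mul (by linarith) ?_ ?_ (by linarith)
    · exact mul_le_mul_of_nonneg_right (by linarith) q0
    · exact mul_nonneg (by linarith) q0
  have e7 : (1 - δ) - γ / 8 ≤ (1 - γ / 32) * ((1 - γ / 16) * (1 - δ)) := by
    have q0 : 0 ≤ 1 - δ := by linarith
    have q1 : 1 - δ ≤ 1 := by linarith
    nlinarith [mul_nonneg hγ0.le q0, mul_nonneg (mul_nonneg hγ0.le hγ0.le) q0]
  have e8 : r' / 2 = (1 - δ) - γ / 2 := by rw [hγ]; ring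
  linarith

end

end Pool.Agent.H525R5.Corr
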