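import Pool.Agent.H525R5.Corr.Latent

/-!
# The main counting inequality

A deterministic rule sees the labels of `L` sample pairs, in this order, stops after `N` of them
and names a pair of labels.  If it stops after less than two samples then it names a pair in the
hole only rarely; in any case the chance is at most about `1 / d`.
-/

namespace Pool.Agent.H525R5.Corr

open Finset Function
open scoped Classical

noncomputable section

variable {d w n L : ℕ}

lemma ind_or (P Q : Prop) : ind (P ∨ Q) ≤ ind P + ind Q := by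
  by_cases hP : P
  · rw [ind_true hP]; linarith [ind_le_one (P ∨ Q), ind_nonneg Q]
  · by_cases hQ : Q
    · rw [ind_true hQ]; linarith [ind_le_one (P ∨ Q), ind_nonneg P]
    · rw [ind_false (by tauto)]; linarith [ind_nonneg P, ind_nonneg Q]

lemma ind_exists {A : Type*} [Fintype A] (P : A → Prop) : ind (∃ a, P a) ≤ ∑ a, ind (P a) := by
  by_cases h : ∃ a, P a
  · obtain ⟨a, ha⟩ := h
    have h1 := Finset.single_le_sum (f := fun a => ind (P a)) (fun a _ => ind_nonneg _)
      (mem_univ a)
    have h2 : (1 : ℝ) ≤ ∑ a, ind (P a) := by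
      refine le_trans (le_of_eq (ind_true ha).symm) h1
    exact (ind_le_one _).trans h2
  · rw [ind_false h]; exact Finset.sum_nonneg fun a _ => ind_nonneg _

/-- the rule depends on the samples read only -/
def Adapted (N : (Fin L → Pt n) → ℕ) (O : (Fin L → Pt n) → Pt n) : Prop :=
  ∀ v (l : Fin L) a, N v ≤ l → N (update v l a) = N v ∧ O (update v l a) = O v

lemma sum_view_eq (G : (Fin L → Pt n) → ℝ) :
    ∑ v : Fin L → Pt n, G v
      = ∑ x : Fin L → Fin n, ∑ y : Fin L → Fin n, G (fun l => (x l, y l)) := by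
  have h := Fintype.sum_prod_type (fun p : (Fin L → Fin n) × (Fin L → Fin n) =>
    G (fun l => (p.1 l, p.2 l)))
  simp only at h
  rw [← h]
  exact Fintype.sum_equiv (Equiv.arrowProdEquivProdArrow (Fin L) (fun _ => Fin n) (fun _ => Fin n))
    _ _ (fun v => rfl)

lemma card_views : (Fintype.card (Fin L → Pt n) : ℝ)
    = Fintype.card (Fin L → Fin n) * Fintype.card (Fin L → Fin n) := by
  simp [mul_pow]

/-- if there are no collisions among the latent labels, the labels are uniform -/
lemma unif_view (c : Fin L → Lat d w) (hc : Good c) (G : (Fin L → Pt n) → ℝ) :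
    (Fintype.card (Fin L → Pt n) : ℝ) * ∑ θ : Th d w n, G (view θ c)
      = Fintype.card (Th d w n) * ∑ v, G v := by
  have h0 : ∑ θ : Th d w n, G (view θ c)
      = ∑ σ : K d w → Fin n, ∑ τ : K d w → Fin n, G (view (σ, τ) c) :=
    Fintype.sum_prod_type _
  have h1 : ∀ σ : K d w → Fin n, (Fintype.card (Fin L → Fin n) : ℝ)
      * ∑ τ : K d w → Fin n, G (view (σ, τ) c)
      = Fintype.card (K d w → Fin n) * ∑ y : Fin L → Fin n,
        G (fun l => (σ (c l).1.1, y l)) := by
    intro σ
    exact sum_extend (fun l => (c l).1.2) hc.2 (fun y => G (fun l => (σ (c l).1.1, y l)))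
  have h2 : (Fintype.card (Fin L → Fin n) : ℝ) * ∑ σ : K d w → Fin n, ∑ y : Fin L → Fin n,
        G (fun l => (σ (c l).1.1, y l))
      = Fintype.card (K d w → Fin n) * ∑ x : Fin L → Fin n, ∑ y : Fin L → Fin n,
        G (fun l => (x l, y l)) :=
    sum_extend (fun l => (c l).1.1) hc.1 (fun x => ∑ y : Fin L → Fin n, G (fun l => (x l, y l)))
  rw [card_views, sum_view_eq, h0]
  have h3 : (Fintype.card (Th d w n) : ℝ)
      = Fintype.card (K d w → Fin n) * Fintype.card (K d w → Fin n) := by
    rw [Fintype.card_prod]; push_cast; ring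
  rw [h3, mul_assoc, Finset.mul_sum (a := (Fintype.card (Fin L → Fin n) : ℝ)),
    Finset.sum_congr rfl fun σ _ => h1 σ, ← Finset.mul_sum, ← mul_assoc, mul_comm
    (Fintype.card (Fin L → Fin n) : ℝ), mul_assoc, h2]
  ring

/-- a label which was not seen is named rarely -/
lemma unseen_x (O : (Fin L → Pt n) → Pt n) (c : Fin L → Lat d w) (i : K d w)
    (hi : ∀ l, (c l).1.1 ≠ i) :
    (n : ℝ) * ∑ θ : Th d w n, ind (θ.1 i = (O (view θ c)).1) ≤ Fintype.card (Th d w n) := by
  have h0 : ∑ θ : Th d w n, ind (θ.1 i = (O (view θ c)).1)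
      = ∑ τ : K d w → Fin n, ∑ σ : K d w → Fin n, ind (σ i = (O (view (σ, τ) c)).1) := by
    rw [Finset.sum_comm]; exact Fintype.sum_prod_type _
  have h1 : ∀ τ : K d w → Fin n,
      (n : ℝ) * ∑ σ : K d w → Fin n, ind (σ i = (O (view (σ, τ) c)).1)
        ≤ Fintype.card (K d w → Fin n) := by
    intro τ
    have := count_update_le i (fun σ : K d w → Fin n => σ i = (O (view (σ, τ) c)).1) 1 (by
      intro σ
      have hv : ∀ a, view (update σ i a, τ) c = view (σ, τ) c := by
        intro a; funext l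
        unfold view
        simp [update_of_ne (hi l)]
      have : ∀ a, ind (update σ i a i = (O (view (update σ i a, τ) c)).1)
          = if a = (O (view (σ, τ) c)).1 then (1 : ℝ) else 0 := by
        intro a
        rw [hv, update_self]
        by_cases h : a = (O (view (σ, τ) c)).1
        · rw [ind_true h, if_pos h]
        · rw [ind_false h, if_neg h]
      rw [Finset.sum_congr rfl fun a _ => this a, Finset.sum_ite_eq']
      simp)
    simpa using this
  rw [h0, Finset.mul_sum]
  refine (Finset.sum_le_sum fun τ _ => h1 τ).trans ?_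
  rw [Fintype.card_prod]
  simp

lemma unseen_y (O : (Fin L → Pt n) → Pt n) (c : Fin L → Lat d w) (i : K d w)
    (hi : ∀ l, (c l).1.2 ≠ i) :
    (n : ℝ) * ∑ θ : Th d w n, ind (θ.2 i = (O (view θ c)).2) ≤ Fintype.card (Th d w n) := by
  have h0 : ∑ θ : Th d w n, ind (θ.2 i = (O (view θ c)).2)
      = ∑ σ : K d w → Fin n, ∑ τ : K d w → Fin n, ind (τ i = (O (view (σ, τ) c)).2) :=
    Fintype.sum_prod_type _
  have h1 : ∀ σ : K d w → Fin n,
      (n : ℝ) * ∑ τ : K d w → Fin n, ind (τ i = (O (view (σ, τ) c)).2)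
        ≤ Fintype.card (K d w → Fin n) := by
    intro σ
    have := count_update_le i (fun τ : K d w → Fin n => τ i = (O (view (σ, τ) c)).2) 1 (by
      intro τ
      have hv : ∀ a, view (σ, update τ i a) c = view (σ, τ) c := by
        intro a; funext l
        unfold view
        simp [update_of_ne (hi l)]
      have : ∀ a, ind (update τ i a i = (O (view (σ, update τ i a) c)).2)
          = if a = (O (view (σ, τ) c)).2 then (1 : ℝ) else 0 := by
        intro a
        rw [hv, update_self]
        by_cases h : a = (O (view (σ, τ) c)).2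
        · rw [ind_true h, if_pos h]
        · rw [ind_false h, if_neg h]
      rw [Finset.sum_congr rfl fun a _ => this a, Finset.sum_ite_eq']
      simp)
    simpa using this
  rw [h0, Finset.mul_sum]
  refine (Finset.sum_le_sum fun σ _ => h1 σ).trans ?_
  rw [Fintype.card_prod]
  simp

lemma sum_fst (x : Fin n) : ∑ a : Pt n, ind (a.1 = x) = n := by
  rw [Fintype.sum_prod_type]
  have : ∀ b : Fin n, ∑ y : Fin n, ind (((b, y) : Pt n).1 = x) = if b = x then (n : ℝ) else 0 := by
    intro b
    by_cases h : b = x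
    · rw [if_pos h, Finset.sum_congr rfl fun y _ => ind_true h]; simp
    · rw [if_neg h, Finset.sum_congr rfl fun y _ => ind_false h]; simp
  rw [Finset.sum_congr rfl fun b _ => this b, Finset.sum_ite_eq']
  simp

lemma sum_snd (x : Fin n) : ∑ a : Pt n, ind (a.2 = x) = n := by
  rw [Fintype.sum_prod_type]
  have : ∀ b : Fin n, ∑ y : Fin n, ind (((b, y) : Pt n).2 = x) = 1 := by
    intro b
    have h3 : ∀ y : Fin n, ind (((b, y) : Pt n).2 = x) = if y = x then (1 : ℝ) else 0 := by
      intro y
      by_cases hc : y = x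
      · rw [if_pos hc, ind_true hc]
      · rw [if_neg hc, ind_false hc]
    rw [Finset.sum_congr rfl fun y _ => h3 y, Finset.sum_ite_eq']
    simp
  rw [Finset.sum_congr rfl fun b _ => this b]
  simp

/-- a view of uniform samples is bad -/
def BadV (N : (Fin L → Pt n) → ℕ) (O : (Fin L → Pt n) → Pt n) (v : Fin L → Pt n) : Prop :=
  ((∃ l l', l ≠ l' ∧ (v l).1 = (v l').1) ∨ (∃ l l', l ≠ l' ∧ (v l).2 = (v l').2)) ∨
  ((∃ l : Fin L, N v ≤ l ∧ (v l).1 = (O v).1) ∨ (∃ l : Fin L, N v ≤ l ∧ (v l).2 = (O v).2))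

lemma coinc (N : (Fin L → Pt n) → ℕ) (O : (Fin L → Pt n) → Pt n) (hNO : Adapted N O)
    (hn : 0 < n) (l : Fin L) (f : Pt n → Fin n) (hf : ∀ x, ∑ a : Pt n, ind (f a = x) = n) :
    (n : ℝ) * ∑ v : Fin L → Pt n, ind (N v ≤ l ∧ f (v l) = f (O v))
      ≤ Fintype.card (Fin L → Pt n) := by
  have h1 := count_update_le l (fun v : Fin L → Pt n => N v ≤ l ∧ f (v l) = f (O v)) n (by
    intro v
    by_cases h : ∃ a0, N (update v l a0) ≤ l
    · obtain ⟨a0, ha0⟩ := h
      rw [← hf (f (O (update v l a0)))]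
      refine Finset.sum_le_sum fun a _ => ind_mono ?_
      rintro ⟨-, h2⟩
      have h3 := (hNO (update v l a0) l a ha0).2
      rw [update_idem] at h3
      rw [update_self, h3] at h2
      exact h2
    · have : ∀ a, ind (N (update v l a) ≤ l ∧ f (update v l a l) = f (O (update v l a))) = 0 := by
        intro a
        refine ind_false ?_
        rintro ⟨h2, -⟩
        exact h ⟨a, h2⟩
      rw [Finset.sum_congr rfl fun a _ => this a]
      simp)
  have hn' : (0 : ℝ) < n := by exact_mod_cast hn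
  have hc : (Fintype.card (Pt n) : ℝ) = n * n := by simp
  rw [hc] at h1
  refine le_of_mul_le_mul_right ?_ hn'
  linarith

lemma rep (hn : 0 < n) (l l' : Fin L) (h : l ≠ l') (f : Pt n → Fin n)
    (hf : ∀ x, ∑ a : Pt n, ind (f a = x) = n) :
    (n : ℝ) * ∑ v : Fin L → Pt n, ind (f (v l) = f (v l')) ≤ Fintype.card (Fin L → Pt n) := by
  have h1 := count_update_le l (fun v : Fin L → Pt n => f (v l) = f (v l')) n (by
    intro v
    rw [← hf (f (v l'))]
    refine Finset.sum_le_sum fun a _ => ind_mono ?_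
    intro h2
    rw [update_self, update_of_ne (Ne.symm h)] at h2
    exact h2)
  have hn' : (0 : ℝ) < n := by exact_mod_cast hn
  have hc : (Fintype.card (Pt n) : ℝ) = n * n := by simp
  rw [hc] at h1
  refine le_of_mul_le_mul_right ?_ hn'
  linarith

lemma sum_badV (N : (Fin L → Pt n) → ℕ) (O : (Fin L → Pt n) → Pt n) (hNO : Adapted N O)
    (hn : 0 < n) :
    (n : ℝ) * ∑ v : Fin L → Pt n, ind (BadV N O v)
      ≤ (2 * L ^ 2 + 2 * L) * Fintype.card (Fin L → Pt n) := by
  set V : ℝ := (Fintype.card (Fin L → Pt n) : ℝ)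
  have hV : 0 ≤ V := by positivity
  have hrep : ∀ f : Pt n → Fin n, (∀ x, ∑ a : Pt n, ind (f a = x) = n) →
      (n : ℝ) * ∑ v : Fin L → Pt n, ind (∃ l l', l ≠ l' ∧ f (v l) = f (v l')) ≤ L ^ 2 * V := by
    intro f hf
    have h1 : ∀ v : Fin L → Pt n, ind (∃ l l', l ≠ l' ∧ f (v l) = f (v l'))
        ≤ ∑ l, ∑ l', ind (l ≠ l' ∧ f (v l) = f (v l')) := fun v =>
      (ind_exists _).trans (Finset.sum_le_sum fun l _ => ind_exists _)
    calc (n : ℝ) * ∑ v : Fin L → Pt n, ind (∃ l l', l ≠ l' ∧ f (v l) = f (v l'))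
        ≤ (n : ℝ) * ∑ v : Fin L → Pt n, ∑ l, ∑ l', ind (l ≠ l' ∧ f (v l) = f (v l')) := by
          apply mul_le_mul_of_nonneg_left _ (by positivity)
          exact Finset.sum_le_sum fun v _ => h1 v
      _ = ∑ l : Fin L, ∑ l' : Fin L,
          (n : ℝ) * ∑ v : Fin L → Pt n, ind (l ≠ l' ∧ f (v l) = f (v l')) := by
          rw [Finset.sum_comm, Finset.mul_sum]
          refine Finset.sum_congr rfl fun l _ => ?_
          rw [Finset.sum_comm, Finset.mul_sum]
      _ ≤ ∑ l : Fin L, ∑ l' : Fin L, V := by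
          refine Finset.sum_le_sum fun l _ => Finset.sum_le_sum fun l' _ => ?_
          by_cases h : l = l'
          · rw [Finset.sum_congr rfl fun v _ => ind_false (P := l ≠ l' ∧ f (v l) = f (v l'))
              (by tauto)]
            simpa using hV
          · refine le_trans ?_ (rep hn l l' h f hf)
            apply mul_le_mul_of_nonneg_left _ (by positivity)
            exact Finset.sum_le_sum fun v _ => ind_mono fun h => h.2
      _ = L ^ 2 * V := by
          simp only [Finset.sum_const, Finset.card_univ, Fintype.card_fin, nsmul_eq_mul]; ring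
  have hco : ∀ f : Pt n → Fin n, (∀ x, ∑ a : Pt n, ind (f a = x) = n) →
      (n : ℝ) * ∑ v : Fin L → Pt n, ind (∃ l : Fin L, N v ≤ l ∧ f (v l) = f (O v)) ≤ L * V := by
    intro f hf
    calc (n : ℝ) * ∑ v : Fin L → Pt n, ind (∃ l : Fin L, N v ≤ l ∧ f (v l) = f (O v))
        ≤ (n : ℝ) * ∑ v : Fin L → Pt n, ∑ l : Fin L, ind (N v ≤ l ∧ f (v l) = f (O v)) := by
          apply mul_le_mul_of_nonneg_left _ (by positivity)
          exact Finset.sum_le_sum fun v _ => ind_exists _
      _ = ∑ l : Fin L, (n : ℝ) * ∑ v : Fin L → Pt n, ind (N v ≤ l ∧ f (v l) = f (O v)) := by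
          rw [Finset.sum_comm, Finset.mul_sum]
      _ ≤ ∑ l : Fin L, V := Finset.sum_le_sum fun l _ => coinc N O hNO hn l f hf
      _ = L * V := by simp
  have h2 : ∀ v : Fin L → Pt n, ind (BadV N O v) ≤
      (ind (∃ l l', l ≠ l' ∧ (v l).1 = (v l').1) + ind (∃ l l', l ≠ l' ∧ (v l).2 = (v l').2)) +
      (ind (∃ l : Fin L, N v ≤ l ∧ (v l).1 = (O v).1)
        + ind (∃ l : Fin L, N v ≤ l ∧ (v l).2 = (O v).2)) := by
    intro v
    unfold BadV
    exact (ind_or _ _).trans (add_le_add (ind_or _ _) (ind_or _ _))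
  have h3 : (n : ℝ) * ∑ v : Fin L → Pt n, ind (BadV N O v) ≤ (n : ℝ) * ∑ v : Fin L → Pt n,
      ((ind (∃ l l', l ≠ l' ∧ (v l).1 = (v l').1) + ind (∃ l l', l ≠ l' ∧ (v l).2 = (v l').2)) +
      (ind (∃ l : Fin L, N v ≤ l ∧ (v l).1 = (O v).1)
        + ind (∃ l : Fin L, N v ≤ l ∧ (v l).2 = (O v).2))) := by
    apply mul_le_mul_of_nonneg_left _ (by positivity)
    exact Finset.sum_le_sum fun v _ => h2 v
  refine h3.trans ?_
  rw [Finset.sum_add_distrib, Finset.sum_add_distrib, Finset.sum_add_distrib]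
  have a1 := hrep Prod.fst sum_fst
  have a2 := hrep Prod.snd sum_snd
  have a3 := hco Prod.fst sum_fst
  have a4 := hco Prod.snd sum_snd
  linarith

/-- pairs of different samples whose labels are named -/
def hits (O : (Fin L → Pt n) → Pt n) (v : Fin L → Pt n) : ℝ :=
  ∑ l, ∑ l', ind (l ≠ l' ∧ (v l).1 = (O v).1 ∧ (v l').2 = (O v).2)

lemma hits_le (N : (Fin L → Pt n) → ℕ) (O : (Fin L → Pt n) → Pt n) (v : Fin L → Pt n) :
    hits O v ≤ ind (2 ≤ N v) + L ^ 2 * ind (BadV N O v) := by
  by_cases hb : BadV N O v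
  · rw [ind_true hb]
    have : hits O v ≤ ∑ _l : Fin L, ∑ _l' : Fin L, (1 : ℝ) :=
      Finset.sum_le_sum fun l _ => Finset.sum_le_sum fun l' _ => ind_le_one _
    simp only [Finset.sum_const, Finset.card_univ, Fintype.card_fin, nsmul_eq_mul, mul_one] at this
    nlinarith [ind_nonneg (2 ≤ N v)]
  · rw [ind_false hb, mul_zero, add_zero]
    unfold BadV at hb
    push Not at hb
    obtain ⟨⟨h1, h2⟩, h3, h4⟩ := hb
    by_cases he : ∃ l l', l ≠ l' ∧ (v l).1 = (O v).1 ∧ (v l').2 = (O v).2
    · obtain ⟨l, l', hne, hl, hl'⟩ := he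
      have hN1 : (l : ℕ) < N v := by
        by_contra h; exact h3 l (not_lt.mp h) hl
      have hN2 : (l' : ℕ) < N v := by
        by_contra h; exact h4 l' (not_lt.mp h) hl'
      have hN : 2 ≤ N v := by
        have : (l : ℕ) ≠ l' := fun h => hne (Fin.ext h)
        omega
      rw [ind_true hN]
      unfold hits
      rw [Finset.sum_eq_single l]
      · rw [Finset.sum_eq_single l']
        · exact ind_le_one _
        · intro k _ hk
          refine ind_false ?_
          rintro ⟨-, -, h6⟩
          exact h2 k l' hk (h6.trans hl'.symm)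
        · simp
      · intro k _ hk
        refine Finset.sum_eq_zero fun k' _ => ind_false ?_
        rintro ⟨-, h5, -⟩
        exact h1 k l hk (h5.trans hl.symm)
      · simp
    · have : hits O v = 0 := by
        unfold hits
        refine Finset.sum_eq_zero fun k _ => Finset.sum_eq_zero fun k' _ => ind_false ?_
        intro h
        exact he ⟨k, k', h⟩
      rw [this]; exact ind_nonneg _

end

end Pool.Agent.H525R5.Corr
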