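import Pool.Agent.H525R5.Corr.Model

/-!
# The hard instances
-/

namespace Pool.Agent.H525R5.Corr

open Finset Function MeasureTheory
open scoped Classical

noncomputable section

variable {d w n L : ℕ}

/-- the labels of a latent pair -/
def lab (θ : Th d w n) (q : Lat d w) : Pt n := (θ.1 q.1.1, θ.2 q.1.2)

instance instNonemptyLat [Fact (2 ≤ d)] [Fact (1 ≤ w)] : Nonempty (Lat d w) := by
  have hd : 2 ≤ d := Fact.out
  have hw : 1 ≤ w := Fact.out
  exact ⟨⟨((⟨0, by omega⟩, ⟨0, by omega⟩), (⟨1, by omega⟩, ⟨0, by omega⟩)), by simp⟩⟩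

/-- the instance: the labels of a uniformly random allowed latent pair -/
def inst [Fact (2 ≤ d)] [Fact (1 ≤ w)] (θ : Th d w n) : PMF (Pt n) :=
  (PMF.uniformOfFintype (Lat d w)).map (lab θ)

variable [Fact (2 ≤ d)] [Fact (1 ≤ w)]

lemma vec_inst (θ : Th d w n) (v : Pt n) :
    vec (inst θ) v = (∑ q : Lat d w, ind (lab θ q = v)) / Fintype.card (Lat d w) := by
  unfold vec inst
  rw [PMF.map_apply, tsum_fintype, ENNReal.toReal_sum (by
    intro q _
    split_ifs
    · exact PMF.apply_ne_top _ _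
    · exact ENNReal.zero_ne_top), Finset.sum_div]
  refine Finset.sum_congr rfl fun q _ => ?_
  by_cases h : v = lab θ q
  · rw [if_pos h, ind_true h.symm, PMF.uniformOfFintype_apply, ENNReal.toReal_inv,
      ENNReal.toReal_natCast, one_div]
  · rw [if_neg h, ind_false (fun h' => h h'.symm)]
    simp

omit [Fact (2 ≤ d)] [Fact (1 ≤ w)] in
lemma sum_mem (Z : Finset (Fin d)) : ∑ c, ind (c ∈ Z) = Z.card := by
  have h : ∀ c, ind (c ∈ Z) = if c ∈ Z then (1 : ℝ) else 0 := by
    intro c
    by_cases hc : c ∈ Z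
    · rw [ind_true hc, if_pos hc]
    · rw [ind_false hc, if_neg hc]
  rw [Finset.sum_congr rfl fun c _ => h c, Finset.sum_ite_mem]
  simp

lemma card_lat_pos : (0 : ℝ) < Fintype.card (Lat d w) := by
  exact_mod_cast Fintype.card_pos

/-- probabilities of events which depend on the first `L` samples -/
lemma real_cyl (θ : Th d w n) (E : (Fin L → Pt n) → Prop) :
    (Measure.infinitePi (fun _ : ℕ => (inst θ).toMeasure)).real {s | E (fun l : Fin L => s l)}
      = (∑ c : Fin L → Lat d w, ind (E (view θ c))) / (Fintype.card (Fin L → Lat d w) : ℝ) := by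
  rw [Measure.real, cyl, ENNReal.toReal_sum (by
    intro v _
    exact ENNReal.prod_ne_top fun l _ => PMF.apply_ne_top _ _)]
  have h1 : ∀ v : Fin L → Pt n, (∏ l, (inst θ) (v l)).toReal
      = (∑ c : Fin L → Lat d w, ind (view θ c = v)) / (Fintype.card (Fin L → Lat d w) : ℝ) := by
    intro v
    rw [ENNReal.toReal_prod]
    have : ∀ l, ((inst θ) (v l)).toReal
        = (∑ q : Lat d w, ind (lab θ q = v l)) / Fintype.card (Lat d w) := fun l =>
      vec_inst θ (v l)
    rw [Finset.prod_congr rfl fun l _ => this l, Finset.prod_div_distrib]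
    congr 1
    · rw [Finset.prod_univ_sum, Fintype.piFinset_univ]
      refine Finset.sum_congr rfl fun c _ => ?_
      by_cases h : view θ c = v
      · rw [ind_true h]
        refine Finset.prod_eq_one fun l _ => ind_true ?_
        rw [← h]; rfl
      · rw [ind_false h]
        have : ∃ l, lab θ (c l) ≠ v l := by
          by_contra hh
          push Not at hh
          exact h (funext hh)
        obtain ⟨l, hl⟩ := this
        exact Finset.prod_eq_zero (Finset.mem_univ l) (ind_false hl)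
    · simp
  rw [Finset.sum_congr rfl fun v _ => h1 v, ← Finset.sum_div, Finset.sum_comm]
  congr 1
  refine Finset.sum_congr rfl fun c _ => ?_
  by_cases h : E (view θ c)
  · rw [ind_true h, Finset.sum_eq_single (view θ c)]
    · exact ind_true rfl
    · intro v _ hv
      exact ind_false fun h' => hv h'.symm
    · intro hh
      exact absurd (Finset.mem_filter.mpr ⟨Finset.mem_univ _, h⟩) hh
  · rw [ind_false h]
    refine Finset.sum_eq_zero fun v hv => ind_false ?_
    intro h'
    rw [Finset.mem_filter] at hv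
    exact h (h' ▸ hv.2)

lemma sum_vec_inst (θ : Th d w n) (A : Finset (Pt n)) :
    ∑ s ∈ A, vec (inst θ) s
      = (∑ q : Lat d w, ind (lab θ q ∈ A)) / Fintype.card (Lat d w) := by
  rw [Finset.sum_congr rfl fun s _ => vec_inst θ s, ← Finset.sum_div, Finset.sum_comm]
  congr 1
  refine Finset.sum_congr rfl fun q _ => ?_
  by_cases h : lab θ q ∈ A
  · rw [ind_true h, Finset.sum_eq_single (lab θ q)]
    · exact ind_true rfl
    · intro v _ hv
      exact ind_false fun h' => hv h'.symm
    · intro hh; exact absurd h hh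
  · rw [ind_false h]
    refine Finset.sum_eq_zero fun v hv => ind_false ?_
    intro h'
    exact h (h' ▸ hv)

/-- the uniform distribution on the labels -/
def uni (σ : K d w → Fin n) : Fin n → ℝ := fun x => (∑ i, ind (σ i = x)) / (d * w)

lemma dw_pos : (0 : ℝ) < (d : ℝ) * w := by
  have hd : 2 ≤ d := Fact.out
  have hw : 1 ≤ w := Fact.out
  apply mul_pos
  · exact_mod_cast (by omega : 0 < d)
  · exact_mod_cast (by omega : 0 < w)

lemma isProb_uni (σ : K d w → Fin n) : IsProb (uni σ) := by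
  constructor
  · intro x
    exact div_nonneg (Finset.sum_nonneg fun i _ => ind_nonneg _) dw_pos.le
  · unfold uni
    rw [← Finset.sum_div, Finset.sum_comm]
    have : ∀ i : K d w, ∑ x : Fin n, ind (σ i = x) = 1 := by
      intro i
      rw [Finset.sum_eq_single (σ i)]
      · exact ind_true rfl
      · intro b _ hb
        exact ind_false fun h => hb h.symm
      · simp
    rw [Finset.sum_congr rfl fun i _ => this i]
    rw [div_eq_one_iff_eq dw_pos.ne']
    simp

lemma admissible_inst (θ : Th d w n) : Admissible (1 / (d : ℝ)) (inst θ) := by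
  have hd : 2 ≤ d := Fact.out
  have hw : 1 ≤ w := Fact.out
  have hd0 : (0 : ℝ) < d := by exact_mod_cast (by omega : 0 < d)
  have hw0 : (0 : ℝ) < w := by exact_mod_cast (by omega : 0 < w)
  have hd2 : (2 : ℝ) ≤ d := by exact_mod_cast hd
  refine ⟨fun s => uni θ.1 s.1 * uni θ.2 s.2, ⟨uni θ.1, uni θ.2, isProb_uni _, isProb_uni _,
    fun x y => rfl⟩, ?_⟩
  intro A
  have hlat := card_lat (d := d) (w := w)
  have hlp := card_lat_pos (d := d) (w := w)
  -- pointwise
  have h1 : ∀ s : Pt n, vec (inst θ) s - uni θ.1 s.1 * uni θ.2 s.2 ≤ vec (inst θ) s / d := by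
    intro s
    have h2 : ∑ q : Lat d w, ind (lab θ q = s)
        ≤ (∑ i : K d w, ind (θ.1 i = s.1)) * (∑ j : K d w, ind (θ.2 j = s.2)) := by
      have e := sum_lat (d := d) (w := w) (fun p => ind ((θ.1 p.1, θ.2 p.2) = s))
      have e' : ∑ q : Lat d w, ind (lab θ q = s)
        = ∑ i : K d w, ∑ j : K d w, ind (i.1 ≠ j.1) * ind ((θ.1 i, θ.2 j) = s) := e
      rw [e', Finset.sum_mul_sum]
      refine Finset.sum_le_sum fun i _ => Finset.sum_le_sum fun j _ => ?_
      by_cases hh : (θ.1 i, θ.2 j) = s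
      · rw [ind_true hh, ind_true (P := θ.1 i = s.1) (by rw [← hh]),
          ind_true (P := θ.2 j = s.2) (by rw [← hh])]
        simpa using ind_le_one _
      · rw [ind_false hh, mul_zero]
        exact mul_nonneg (ind_nonneg _) (ind_nonneg _)
    have h3 : (∑ q : Lat d w, ind (lab θ q = s)) = vec (inst θ) s * Fintype.card (Lat d w) := by
      rw [vec_inst]; field_simp
    have h4 : vec (inst θ) s * (1 - 1 / d) ≤ uni θ.1 s.1 * uni θ.2 s.2 := by
      unfold uni
      rw [div_mul_div_comm, le_div_iff₀ (mul_pos dw_pos dw_pos)]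
      rw [h3, hlat] at h2
      refine le_trans (le_of_eq ?_) h2
      field_simp
    have h5 : vec (inst θ) s * (1 - 1 / d) = vec (inst θ) s - vec (inst θ) s / d := by ring
    linarith
  rw [← Finset.sum_sub_distrib]
  refine (Finset.sum_le_sum fun s _ => h1 s).trans ?_
  rw [← Finset.sum_div, sum_vec_inst]
  apply div_le_div_of_nonneg_right _ hd0.le
  rw [div_le_one hlp]
  refine (Finset.sum_le_sum fun q _ => ind_le_one _).trans ?_
  simp

/-- every product distribution close to the instance gives the hole about the mass `1 / d` -/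
lemma hole_mass (θ : Th d w n) (h1 : Injective θ.1) (h2 : Injective θ.2) (v : Pt n → ℝ)
    (hv : IsProduct v) (ρ : ℝ) (hρ : TVLe (vec (inst θ)) v ρ) :
    (1 - 2 * ρ) / d ≤ ∑ s ∈ univ.filter (fun s => s ∈ Hol θ), v s := by
  have hd : 2 ≤ d := Fact.out
  have hw : 1 ≤ w := Fact.out
  have hd0 : (0 : ℝ) < d := by exact_mod_cast (by omega : 0 < d)
  have hw0 : (0 : ℝ) < w := by exact_mod_cast (by omega : 0 < w)
  have hd2 : (2 : ℝ) ≤ d := by exact_mod_cast hd
  obtain ⟨a, b, ⟨ha, ha1⟩, ⟨hb, hb1⟩, hab⟩ := hv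
  set α : Fin d → ℝ := fun c => ∑ u : Fin w, a (θ.1 (c, u)) with hα
  set β : Fin d → ℝ := fun c => ∑ u : Fin w, b (θ.2 (c, u)) with hβ
  have hα0 : ∀ c, 0 ≤ α c := fun c => Finset.sum_nonneg fun u _ => ha _
  have hβ0 : ∀ c, 0 ≤ β c := fun c => Finset.sum_nonneg fun u _ => hb _
  have hlat := card_lat (d := d) (w := w)
  have hlp := card_lat_pos (d := d) (w := w)
  -- classes of the first coordinates
  have k1 : ∀ Z : Finset (Fin d), ∑ c ∈ Z, (1 / (d : ℝ) - α c) ≤ ρ := by
    intro Z
    set A : Finset (Pt n) := univ.filter (fun s => ∃ i : K d w, i.1 ∈ Z ∧ θ.1 i = s.1) with hA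
    have e1 : (Z.card : ℝ) / d ≤ ∑ s ∈ A, vec (inst θ) s := by
      rw [sum_vec_inst, div_le_div_iff₀ hd0 hlp]
      have : ∑ q : Lat d w, ind (q.1.1.1 ∈ Z) ≤ ∑ q : Lat d w, ind (lab θ q ∈ A) := by
        refine Finset.sum_le_sum fun q _ => ind_mono fun h => ?_
        rw [hA, Finset.mem_filter]
        exact ⟨Finset.mem_univ _, q.1.1, h, rfl⟩
      have e2 : ∑ q : Lat d w, ind (q.1.1.1 ∈ Z) = Z.card * (w * (w * ((d : ℝ) - 1))) := by
        have e3 := sum_lat (d := d) (w := w) (fun p => ind (p.1.1 ∈ Z))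
        rw [e3]
        have e4 : ∀ i : K d w, ∑ j : K d w, ind (i.1 ≠ j.1) * ind (i.1 ∈ Z)
            = (w * ((d : ℝ) - 1)) * ind (i.1 ∈ Z) := by
          intro i; rw [← Finset.sum_mul, sum_cls]
        rw [Finset.sum_congr rfl fun i _ => e4 i, ← Finset.mul_sum, Fintype.sum_prod_type]
        simp only [Finset.sum_const, Finset.card_univ, Fintype.card_fin, nsmul_eq_mul]
        rw [← Finset.mul_sum, sum_mem]
        ring
      rw [hlat]
      rw [e2] at this
      nlinarith [this]
    have e2 : ∑ s ∈ A, v s ≤ ∑ c ∈ Z, α c := by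
      have f1 : ∑ s ∈ A, v s = ∑ x ∈ univ.filter (fun x => ∃ i : K d w, i.1 ∈ Z ∧ θ.1 i = x),
          a x := by
        rw [hA, Finset.sum_filter, Finset.sum_filter, Fintype.sum_prod_type]
        refine Finset.sum_congr rfl fun x _ => ?_
        by_cases hx : ∃ i : K d w, i.1 ∈ Z ∧ θ.1 i = x
        · rw [if_pos hx]
          have : ∀ y, (if ∃ i : K d w, i.1 ∈ Z ∧ θ.1 i = ((x, y) : Pt n).1 then v (x, y) else 0)
              = a x * b y := by
            intro y; rw [if_pos hx, hab]
          rw [Finset.sum_congr rfl fun y _ => this y, ← Finset.mul_sum, hb1, mul_one]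
        · rw [if_neg hx]
          exact Finset.sum_eq_zero fun y _ => if_neg hx
      have f2 : ∑ c ∈ Z, α c = ∑ i ∈ Z ×ˢ (univ : Finset (Fin w)), a (θ.1 i) := by
        rw [Finset.sum_product]
      rw [f1, f2]
      have f3 : univ.filter (fun x => ∃ i : K d w, i.1 ∈ Z ∧ θ.1 i = x)
          ⊆ (Z ×ˢ (univ : Finset (Fin w))).image θ.1 := by
        intro x hx
        rw [Finset.mem_filter] at hx
        obtain ⟨-, i, hi, rfl⟩ := hx
        exact Finset.mem_image_of_mem _ (by simp [hi])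
      refine (Finset.sum_le_sum_of_subset_of_nonneg f3 fun x _ _ => ha x).trans ?_
      rw [Finset.sum_image (fun i _ j _ h => h1 h)]
    have e3 := hρ A
    rw [Finset.sum_sub_distrib]
    simp only [Finset.sum_const, nsmul_eq_mul]
    have : (Z.card : ℝ) * (1 / d) = (Z.card : ℝ) / d := by ring
    linarith
  have k2 : ∀ Z : Finset (Fin d), ∑ c ∈ Z, (1 / (d : ℝ) - β c) ≤ ρ := by
    intro Z
    set A : Finset (Pt n) := univ.filter (fun s => ∃ i : K d w, i.1 ∈ Z ∧ θ.2 i = s.2) with hA
    have e1 : (Z.card : ℝ) / d ≤ ∑ s ∈ A, vec (inst θ) s := by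
      rw [sum_vec_inst, div_le_div_iff₀ hd0 hlp]
      have : ∑ q : Lat d w, ind (q.1.2.1 ∈ Z) ≤ ∑ q : Lat d w, ind (lab θ q ∈ A) := by
        refine Finset.sum_le_sum fun q _ => ind_mono fun h => ?_
        rw [hA, Finset.mem_filter]
        exact ⟨Finset.mem_univ _, q.1.2, h, rfl⟩
      have e2 : ∑ q : Lat d w, ind (q.1.2.1 ∈ Z) = Z.card * (w * (w * ((d : ℝ) - 1))) := by
        have e3 := sum_lat (d := d) (w := w) (fun p => ind (p.2.1 ∈ Z))
        rw [e3, Finset.sum_comm]
        have e4 : ∀ j : K d w, ∑ i : K d w, ind (i.1 ≠ j.1) * ind (j.1 ∈ Z)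
            = (w * ((d : ℝ) - 1)) * ind (j.1 ∈ Z) := by
          intro j; rw [← Finset.sum_mul, sum_cls']
        rw [Finset.sum_congr rfl fun i _ => e4 i, ← Finset.mul_sum, Fintype.sum_prod_type]
        simp only [Finset.sum_const, Finset.card_univ, Fintype.card_fin, nsmul_eq_mul]
        rw [← Finset.mul_sum, sum_mem]
        ring
      rw [hlat]
      rw [e2] at this
      nlinarith [this]
    have e2 : ∑ s ∈ A, v s ≤ ∑ c ∈ Z, β c := by
      have f1 : ∑ s ∈ A, v s = ∑ x ∈ univ.filter (fun x => ∃ i : K d w, i.1 ∈ Z ∧ θ.2 i = x),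
          b x := by
        rw [hA, Finset.sum_filter, Finset.sum_filter, Fintype.sum_prod_type, Finset.sum_comm]
        refine Finset.sum_congr rfl fun y _ => ?_
        by_cases hx : ∃ i : K d w, i.1 ∈ Z ∧ θ.2 i = y
        · rw [if_pos hx]
          have : ∀ x, (if ∃ i : K d w, i.1 ∈ Z ∧ θ.2 i = ((x, y) : Pt n).2 then v (x, y) else 0)
              = a x * b y := by
            intro x; rw [if_pos hx, hab]
          rw [Finset.sum_congr rfl fun x _ => this x, ← Finset.sum_mul, ha1, one_mul]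
        · rw [if_neg hx]
          exact Finset.sum_eq_zero fun x _ => if_neg hx
      have f2 : ∑ c ∈ Z, β c = ∑ i ∈ Z ×ˢ (univ : Finset (Fin w)), b (θ.2 i) := by
        rw [Finset.sum_product]
      rw [f1, f2]
      have f3 : univ.filter (fun x => ∃ i : K d w, i.1 ∈ Z ∧ θ.2 i = x)
          ⊆ (Z ×ˢ (univ : Finset (Fin w))).image θ.2 := by
        intro x hx
        rw [Finset.mem_filter] at hx
        obtain ⟨-, i, hi, rfl⟩ := hx
        exact Finset.mem_image_of_mem _ (by simp [hi])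
      refine (Finset.sum_le_sum_of_subset_of_nonneg f3 fun x _ _ => hb x).trans ?_
      rw [Finset.sum_image (fun i _ j _ h => h2 h)]
    have e3 := hρ A
    rw [Finset.sum_sub_distrib]
    simp only [Finset.sum_const, nsmul_eq_mul]
    have : (Z.card : ℝ) * (1 / d) = (Z.card : ℝ) / d := by ring
    linarith
  -- positive parts
  have m1 : ∑ c, max (1 / (d : ℝ) - α c) 0 ≤ ρ := by
    have := k1 (univ.filter fun c => 0 ≤ 1 / (d : ℝ) - α c)
    rw [Finset.sum_filter] at this
    refine le_trans (le_of_eq ?_) this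
    refine Finset.sum_congr rfl fun c _ => ?_
    by_cases h : 0 ≤ 1 / (d : ℝ) - α c
    · rw [if_pos h, max_eq_left h]
    · rw [if_neg h, max_eq_right (by linarith)]
  have m2 : ∑ c, max (1 / (d : ℝ) - β c) 0 ≤ ρ := by
    have := k2 (univ.filter fun c => 0 ≤ 1 / (d : ℝ) - β c)
    rw [Finset.sum_filter] at this
    refine le_trans (le_of_eq ?_) this
    refine Finset.sum_congr rfl fun c _ => ?_
    by_cases h : 0 ≤ 1 / (d : ℝ) - β c
    · rw [if_pos h, max_eq_left h]
    · rw [if_neg h, max_eq_right (by linarith)]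
  have m3 : ∀ c, 1 / (d : ℝ) * (1 / d) - 1 / d * (max (1 / (d : ℝ) - α c) 0
      + max (1 / (d : ℝ) - β c) 0) ≤ α c * β c := by
    intro c
    set e := max (1 / (d : ℝ) - α c) 0
    set g := max (1 / (d : ℝ) - β c) 0
    have he : 1 / (d : ℝ) - α c ≤ e := le_max_left _ _
    have hg : 1 / (d : ℝ) - β c ≤ g := le_max_left _ _
    have he0 : 0 ≤ e := le_max_right _ _
    have hg0 : 0 ≤ g := le_max_right _ _
    have hd1 : (0 : ℝ) < 1 / d := by positivity
    have he1 : e ≤ 1 / d := max_le (by linarith [hα0 c]) hd1.le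
    have hg1 : g ≤ 1 / d := max_le (by linarith [hβ0 c]) hd1.le
    have q : (1 / (d : ℝ) - e) * (1 / d - g) ≤ α c * β c :=
      mul_le_mul (by linarith) (by linarith) (by linarith) (hα0 c)
    nlinarith [mul_nonneg he0 hg0]
  have m4 : (1 - 2 * ρ) / d ≤ ∑ c, α c * β c := by
    refine le_trans ?_ (Finset.sum_le_sum fun c _ => m3 c)
    have hd1 : (0 : ℝ) < 1 / d := by positivity
    have a1 : ∑ _c : Fin d, 1 / (d : ℝ) * (1 / d) = 1 / d := by
      simp only [Finset.sum_const, Finset.card_univ, Fintype.card_fin, nsmul_eq_mul]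
      field_simp
    have a2 : ∑ c, 1 / (d : ℝ) * (max (1 / (d : ℝ) - α c) 0 + max (1 / (d : ℝ) - β c) 0)
        = 1 / d * (∑ c, max (1 / (d : ℝ) - α c) 0 + ∑ c, max (1 / (d : ℝ) - β c) 0) := by
      rw [← Finset.mul_sum, Finset.sum_add_distrib]
    rw [Finset.sum_sub_distrib, a1, a2]
    have q2 : (1 - 2 * ρ) / d = 1 / d - 1 / d * (ρ + ρ) := by ring
    rw [q2]
    nlinarith [m1, m2]
  -- the hole
  refine m4.trans ?_
  have n1 : ∑ c, α c * β c = ∑ t : Fin d × (Fin w × Fin w),
      v (θ.1 (t.1, t.2.1), θ.2 (t.1, t.2.2)) := by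
    rw [Fintype.sum_prod_type]
    refine Finset.sum_congr rfl fun c _ => ?_
    rw [hα, hβ]
    simp only
    rw [Finset.sum_mul_sum, Fintype.sum_prod_type]
    refine Finset.sum_congr rfl fun u _ => Finset.sum_congr rfl fun u' _ => ?_
    rw [hab]
  have hv0 : ∀ s, 0 ≤ v s := by
    rintro ⟨x, y⟩; rw [hab]; exact mul_nonneg (ha x) (hb y)
  rw [n1]
  have n2 : ∑ t : Fin d × (Fin w × Fin w), v (θ.1 (t.1, t.2.1), θ.2 (t.1, t.2.2))
      = ∑ s ∈ univ.image (fun t : Fin d × (Fin w × Fin w) =>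
        ((θ.1 (t.1, t.2.1), θ.2 (t.1, t.2.2)) : Pt n)), v s := by
    rw [Finset.sum_image]
    rintro ⟨c, u, u'⟩ _ ⟨c2, u2, u2'⟩ _ h
    simp only [Prod.mk.injEq] at h
    have g1 := h1 h.1
    have g2 := h2 h.2
    simp only [Prod.mk.injEq] at g1 g2
    simp [g1.1, g1.2, g2.2]
  rw [n2]
  refine Finset.sum_le_sum_of_subset_of_nonneg ?_ fun s _ _ => hv0 s
  intro s hs
  rw [Finset.mem_image] at hs
  obtain ⟨t, -, rfl⟩ := hs
  rw [Finset.mem_filter]
  exact ⟨Finset.mem_univ _, (t.1, t.2.1), (t.1, t.2.2), rfl, rfl, rfl⟩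

end

end Pool.Agent.H525R5.Corr
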