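import Pool.Agent.H525R5.Corr.Count

/-!
# The hidden instance: latent labels with classes

A latent label is a pair (class, number).  The allowed latent pairs are those with two different
classes.  Labels are hidden by two random functions.
-/

namespace Pool.Agent.H525R5.Corr

open Finset Function
open scoped Classical

noncomputable section

/-- points of the square -/
abbrev Pt (n : ℕ) := Fin n × Fin n

/-- latent labels -/
abbrev K (d w : ℕ) := Fin d × Fin w

/-- allowed latent pairs: different classes -/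
abbrev Lat (d w : ℕ) := {q : K d w × K d w // q.1.1 ≠ q.2.1}

/-- two labellings -/
abbrev Th (d w n : ℕ) := (K d w → Fin n) × (K d w → Fin n)

variable {d w n L : ℕ}

/-- the labels of a sequence of latent pairs -/
def view (θ : Th d w n) (c : Fin L → Lat d w) : Fin L → Pt n :=
  fun l => (θ.1 (c l).1.1, θ.2 (c l).1.2)

/-- the hole: pairs of labels with the same class -/
def Hol (θ : Th d w n) : Set (Pt n) :=
  {s | ∃ i j : K d w, i.1 = j.1 ∧ θ.1 i = s.1 ∧ θ.2 j = s.2}

lemma sum_lat (F : K d w × K d w → ℝ) :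
    ∑ q : Lat d w, F q.1 = ∑ i : K d w, ∑ j : K d w, ind (i.1 ≠ j.1) * F (i, j) := by
  have h : ∑ q ∈ univ.filter (fun q : K d w × K d w => q.1.1 ≠ q.2.1), F q
      = ∑ q : Lat d w, F q.1 :=
    Finset.sum_subtype (p := fun q : K d w × K d w => q.1.1 ≠ q.2.1) _ (by intro x; simp) F
  have h2 : ∑ q : K d w × K d w, ind (q.1.1 ≠ q.2.1) * F q
      = ∑ i : K d w, ∑ j : K d w, ind (i.1 ≠ j.1) * F (i, j) := Fintype.sum_prod_type _
  rw [← h, Finset.sum_filter, ← h2]
  refine Finset.sum_congr rfl fun q _ => ?_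
  unfold ind
  split_ifs <;> simp

lemma sum_ne (c0 : Fin d) : ∑ c : Fin d, ind (c0 ≠ c) = (d : ℝ) - 1 := by
  have h : ∀ c : Fin d, ind (c0 ≠ c) = 1 - (if c0 = c then (1 : ℝ) else 0) := by
    intro c; unfold ind; by_cases h : c0 = c <;> simp [h]
  rw [Finset.sum_congr rfl fun c _ => h c, Finset.sum_sub_distrib]
  simp

lemma sum_ne' (c0 : Fin d) : ∑ c : Fin d, ind (c ≠ c0) = (d : ℝ) - 1 := by
  rw [← sum_ne c0]
  refine Finset.sum_congr rfl fun c _ => ?_
  congr 1
  exact propext ne_comm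

lemma sum_cls (c0 : Fin d) : ∑ j : K d w, ind (c0 ≠ j.1) = w * ((d : ℝ) - 1) := by
  rw [Fintype.sum_prod_type]
  simp only [Finset.sum_const, Finset.card_univ, Fintype.card_fin, nsmul_eq_mul]
  rw [← Finset.mul_sum, sum_ne]

lemma sum_cls' (c0 : Fin d) : ∑ j : K d w, ind (j.1 ≠ c0) = w * ((d : ℝ) - 1) := by
  rw [Fintype.sum_prod_type]
  simp only [Finset.sum_const, Finset.card_univ, Fintype.card_fin, nsmul_eq_mul]
  rw [← Finset.mul_sum, sum_ne']

lemma card_lat : (Fintype.card (Lat d w) : ℝ) = d * w * (w * ((d : ℝ) - 1)) := by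
  have h : (Fintype.card (Lat d w) : ℝ) = ∑ q : Lat d w, (fun _ => (1 : ℝ)) q.1 := by simp
  rw [h, sum_lat (fun _ => (1 : ℝ))]
  simp only [mul_one]
  rw [Finset.sum_congr rfl fun i _ => sum_cls i.1]
  simp

lemma lat_x (i0 : K d w) : ∑ q : Lat d w, ind (q.1.1 = i0) = w * ((d : ℝ) - 1) := by
  have := sum_lat (d := d) (w := w) (fun p => ind (p.1 = i0))
  rw [this, Finset.sum_eq_single i0]
  · simp only [ind_true, mul_one]
    exact sum_cls i0.1
  · intro i _ hi
    refine Finset.sum_eq_zero fun j _ => ?_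
    rw [ind_false (P := i = i0) hi, mul_zero]
  · simp

lemma lat_y (j0 : K d w) : ∑ q : Lat d w, ind (q.1.2 = j0) = w * ((d : ℝ) - 1) := by
  have := sum_lat (d := d) (w := w) (fun p => ind (p.2 = j0))
  rw [this, Finset.sum_comm, Finset.sum_eq_single j0]
  · simp only [ind_true, mul_one]
    exact sum_cls' j0.1
  · intro i _ hi
    refine Finset.sum_eq_zero fun j _ => ?_
    rw [ind_false (P := i = j0) hi, mul_zero]
  · simp

lemma lat_cls (c0 : Fin d) :
    ∑ q : Lat d w, ind (c0 = q.1.2.1) = w * (w * ((d : ℝ) - 1)) := by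
  have := sum_lat (d := d) (w := w) (fun p => ind (c0 = p.2.1))
  rw [this, Finset.sum_comm]
  have h : ∀ j : K d w, ∑ i : K d w, ind (i.1 ≠ j.1) * ind (c0 = j.1)
      = (w * ((d : ℝ) - 1)) * ind (c0 = j.1) := by
    intro j
    rw [← Finset.sum_mul, sum_cls']
  rw [Finset.sum_congr rfl fun j _ => h j, ← Finset.mul_sum, Fintype.sum_prod_type]
  simp only [Finset.sum_const, Finset.card_univ, Fintype.card_fin, nsmul_eq_mul]
  have h2 : ∑ c : Fin d, (w : ℝ) * ind (c0 = c) = w := by
    have h3 : ∀ c : Fin d, (w : ℝ) * ind (c0 = c) = if c0 = c then (w : ℝ) else 0 := by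
      intro c
      by_cases hc : c0 = c
      · rw [ind_true hc, if_pos hc, mul_one]
      · rw [ind_false hc, if_neg hc, mul_zero]
    rw [Finset.sum_congr rfl fun c _ => h3 c, Finset.sum_ite_eq]
    simp
  rw [h2]; ring

/-- collisions of latent labels are rare -/
lemma coll_x (hd : 2 ≤ d) (hw : 1 ≤ w) (l l' : Fin L) (h : l ≠ l') :
    ((d : ℝ) * w) * ∑ c : Fin L → Lat d w, ind ((c l).1.1 = (c l').1.1)
      ≤ Fintype.card (Fin L → Lat d w) := by
  have h1 := count_update_le l' (fun c : Fin L → Lat d w => (c l).1.1 = (c l').1.1)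
    (w * ((d : ℝ) - 1)) (by
      intro c
      have : ∀ a : Lat d w, ind (((update c l' a) l).1.1 = ((update c l' a) l').1.1)
          = ind (a.1.1 = (c l).1.1) := by
        intro a
        rw [update_self, update_of_ne h]
        congr 1; exact propext eq_comm
      rw [Finset.sum_congr rfl fun a _ => this a, lat_x])
  rw [card_lat] at h1
  have hpos : (0 : ℝ) < w * ((d : ℝ) - 1) := by
    have : (2 : ℝ) ≤ d := by exact_mod_cast hd
    have : (1 : ℝ) ≤ w := by exact_mod_cast hw
    apply mul_pos <;> linarith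
  refine le_of_mul_le_mul_right ?_ hpos
  linarith [h1]

lemma coll_y (hd : 2 ≤ d) (hw : 1 ≤ w) (l l' : Fin L) (h : l ≠ l') :
    ((d : ℝ) * w) * ∑ c : Fin L → Lat d w, ind ((c l).1.2 = (c l').1.2)
      ≤ Fintype.card (Fin L → Lat d w) := by
  have h1 := count_update_le l' (fun c : Fin L → Lat d w => (c l).1.2 = (c l').1.2)
    (w * ((d : ℝ) - 1)) (by
      intro c
      have : ∀ a : Lat d w, ind (((update c l' a) l).1.2 = ((update c l' a) l').1.2)
          = ind (a.1.2 = (c l).1.2) := by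
        intro a
        rw [update_self, update_of_ne h]
        congr 1; exact propext eq_comm
      rw [Finset.sum_congr rfl fun a _ => this a, lat_y])
  rw [card_lat] at h1
  have hpos : (0 : ℝ) < w * ((d : ℝ) - 1) := by
    have : (2 : ℝ) ≤ d := by exact_mod_cast hd
    have : (1 : ℝ) ≤ w := by exact_mod_cast hw
    apply mul_pos <;> linarith
  refine le_of_mul_le_mul_right ?_ hpos
  linarith [h1]

/-- the classes of the first label of one pair and the second label of another agree with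
probability `1 / d` -/
lemma cls_xy (hd : 2 ≤ d) (hw : 1 ≤ w) (l l' : Fin L) (h : l ≠ l') :
    (d : ℝ) * ∑ c : Fin L → Lat d w, ind ((c l).1.1.1 = (c l').1.2.1)
      ≤ Fintype.card (Fin L → Lat d w) := by
  have h1 := count_update_le l' (fun c : Fin L → Lat d w => (c l).1.1.1 = (c l').1.2.1)
    (w * (w * ((d : ℝ) - 1))) (by
      intro c
      have : ∀ a : Lat d w, ind (((update c l' a) l).1.1.1 = ((update c l' a) l').1.2.1)
          = ind ((c l).1.1.1 = a.1.2.1) := by
        intro a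
        rw [update_self, update_of_ne h]
      rw [Finset.sum_congr rfl fun a _ => this a, lat_cls])
  rw [card_lat] at h1
  have hpos : (0 : ℝ) < w * (w * ((d : ℝ) - 1)) := by
    have : (2 : ℝ) ≤ d := by exact_mod_cast hd
    have : (1 : ℝ) ≤ w := by exact_mod_cast hw
    apply mul_pos _ (mul_pos _ _) <;> linarith
  refine le_of_mul_le_mul_right ?_ hpos
  linarith [h1]

/-- good sequences of latent pairs: no collision -/
def Good (c : Fin L → Lat d w) : Prop :=
  Injective (fun l => (c l).1.1) ∧ Injective (fun l => (c l).1.2)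

lemma sum_not_good (hd : 2 ≤ d) (hw : 1 ≤ w) :
    ((d : ℝ) * w) * ∑ c : Fin L → Lat d w, ind (¬ Good c)
      ≤ 2 * L ^ 2 * Fintype.card (Fin L → Lat d w) := by
  have h1 : ∀ c : Fin L → Lat d w, ind (¬ Good c) ≤
      ∑ l : Fin L, ∑ l' : Fin L, (ind (l ≠ l' ∧ (c l).1.1 = (c l').1.1)
        + ind (l ≠ l' ∧ (c l).1.2 = (c l').1.2)) := by
    intro c
    by_cases hg : Good c
    · rw [ind_false (by simpa using hg)]
      exact Finset.sum_nonneg fun l _ => Finset.sum_nonneg fun l' _ =>
        add_nonneg (ind_nonneg _) (ind_nonneg _)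
    · have : ∃ l l' : Fin L, 1 ≤ (ind (l ≠ l' ∧ (c l).1.1 = (c l').1.1)
        + ind (l ≠ l' ∧ (c l).1.2 = (c l').1.2)) := by
        unfold Good at hg
        rw [not_and_or] at hg
        rcases hg with hg | hg
        · rw [Injective] at hg
          push Not at hg
          obtain ⟨l, l', he, hne⟩ := hg
          refine ⟨l, l', ?_⟩
          rw [ind_true (P := l ≠ l' ∧ (c l).1.1 = (c l').1.1) ⟨hne, he⟩]
          linarith [ind_nonneg (l ≠ l' ∧ (c l).1.2 = (c l').1.2)]
        · rw [Injective] at hg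
          push Not at hg
          obtain ⟨l, l', he, hne⟩ := hg
          refine ⟨l, l', ?_⟩
          rw [ind_true (P := l ≠ l' ∧ (c l).1.2 = (c l').1.2) ⟨hne, he⟩]
          linarith [ind_nonneg (l ≠ l' ∧ (c l).1.1 = (c l').1.1)]
      obtain ⟨l, l', hll⟩ := this
      have hn : ∀ l l' : Fin L, 0 ≤ (ind (l ≠ l' ∧ (c l).1.1 = (c l').1.1)
        + ind (l ≠ l' ∧ (c l).1.2 = (c l').1.2)) := fun l l' =>
          add_nonneg (ind_nonneg _) (ind_nonneg _)
      have h2 := Finset.single_le_sum (f := fun l' => (ind (l ≠ l' ∧ (c l).1.1 = (c l').1.1)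
        + ind (l ≠ l' ∧ (c l).1.2 = (c l').1.2))) (fun l' _ => hn l l') (mem_univ l')
      have h3 := Finset.single_le_sum (f := fun l => ∑ l' : Fin L,
        (ind (l ≠ l' ∧ (c l).1.1 = (c l').1.1) + ind (l ≠ l' ∧ (c l).1.2 = (c l').1.2)))
        (fun l _ => Finset.sum_nonneg fun l' _ => hn l l') (mem_univ l)
      exact (ind_le_one _).trans (hll.trans (h2.trans h3))
  have h2 : ∀ l l' : Fin L, ((d : ℝ) * w) * ∑ c : Fin L → Lat d w,
      (ind (l ≠ l' ∧ (c l).1.1 = (c l').1.1) + ind (l ≠ l' ∧ (c l).1.2 = (c l').1.2))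
      ≤ 2 * Fintype.card (Fin L → Lat d w) := by
    intro l l'
    by_cases h : l = l'
    · subst h
      have : ∀ c : Fin L → Lat d w, (ind (l ≠ l ∧ (c l).1.1 = (c l).1.1)
          + ind (l ≠ l ∧ (c l).1.2 = (c l).1.2)) = 0 := by
        intro c; rw [ind_false (by simp), ind_false (by simp)]; simp
      rw [Finset.sum_congr rfl fun c _ => this c]
      simp
    · have e1 : ∀ c : Fin L → Lat d w, (ind (l ≠ l' ∧ (c l).1.1 = (c l').1.1)
          + ind (l ≠ l' ∧ (c l).1.2 = (c l').1.2)) =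
          ind ((c l).1.1 = (c l').1.1) + ind ((c l).1.2 = (c l').1.2) := by
        intro c; simp [h]
      rw [Finset.sum_congr rfl fun c _ => e1 c, Finset.sum_add_distrib, mul_add]
      linarith [coll_x hd hw l l' h, coll_y (d := d) (w := w) hd hw l l' h]
  calc ((d : ℝ) * w) * ∑ c : Fin L → Lat d w, ind (¬ Good c)
      ≤ ((d : ℝ) * w) * ∑ c : Fin L → Lat d w, ∑ l : Fin L, ∑ l' : Fin L,
        (ind (l ≠ l' ∧ (c l).1.1 = (c l').1.1) + ind (l ≠ l' ∧ (c l).1.2 = (c l').1.2)) := by
        apply mul_le_mul_of_nonneg_left _ (by positivity)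
        exact Finset.sum_le_sum fun c _ => h1 c
    _ = ∑ l : Fin L, ∑ l' : Fin L, ((d : ℝ) * w) * ∑ c : Fin L → Lat d w,
        (ind (l ≠ l' ∧ (c l).1.1 = (c l').1.1) + ind (l ≠ l' ∧ (c l).1.2 = (c l').1.2)) := by
        rw [Finset.sum_comm, Finset.mul_sum]
        refine Finset.sum_congr rfl fun l _ => ?_
        rw [Finset.sum_comm, Finset.mul_sum]
    _ ≤ ∑ l : Fin L, ∑ l' : Fin L, (2 * (Fintype.card (Fin L → Lat d w) : ℝ)) :=
        Finset.sum_le_sum fun l _ => Finset.sum_le_sum fun l' _ => h2 l l'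
    _ = 2 * L ^ 2 * Fintype.card (Fin L → Lat d w) := by
        simp only [Finset.sum_const, Finset.card_univ, Fintype.card_fin, nsmul_eq_mul]; ring

end

end Pool.Agent.H525R5.Corr
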