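import Pool.Agent.H525R5.Corr.Finite

namespace Pool.Agent.H525R5.Corr

open Finset Function
open scoped Classical

noncomputable section

variable {d w n L : ℕ}

lemma hole_le (O : (Fin L → Pt n) → Pt n) (θ : Th d w n) (c : Fin L → Lat d w) :
    ind (O (view θ c) ∈ Hol θ) ≤ ind (¬ Good c)
      + ∑ i : K d w, ind ((∀ l, (c l).1.1 ≠ i) ∧ θ.1 i = (O (view θ c)).1)
      + ∑ i : K d w, ind ((∀ l, (c l).1.2 ≠ i) ∧ θ.2 i = (O (view θ c)).2)
      + ind (Good c) * ∑ l, ∑ l', ind ((c l).1.1.1 = (c l').1.2.1) *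
        ind (l ≠ l' ∧ (view θ c l).1 = (O (view θ c)).1 ∧ (view θ c l').2 = (O (view θ c)).2) := by
  have n1 : 0 ≤ ind (¬ Good c) := ind_nonneg _
  have n2 : 0 ≤ ∑ i : K d w, ind ((∀ l, (c l).1.1 ≠ i) ∧ θ.1 i = (O (view θ c)).1) :=
    Finset.sum_nonneg fun i _ => ind_nonneg _
  have n3 : 0 ≤ ∑ i : K d w, ind ((∀ l, (c l).1.2 ≠ i) ∧ θ.2 i = (O (view θ c)).2) :=
    Finset.sum_nonneg fun i _ => ind_nonneg _
  have n5 : ∀ l l' : Fin L, 0 ≤ ind ((c l).1.1.1 = (c l').1.2.1) *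
        ind (l ≠ l' ∧ (view θ c l).1 = (O (view θ c)).1 ∧
          (view θ c l').2 = (O (view θ c)).2) := fun l l' =>
    mul_nonneg (ind_nonneg _) (ind_nonneg _)
  have n4 : 0 ≤ ind (Good c) * ∑ l, ∑ l', ind ((c l).1.1.1 = (c l').1.2.1) *
        ind (l ≠ l' ∧ (view θ c l).1 = (O (view θ c)).1 ∧ (view θ c l').2 = (O (view θ c)).2) :=
    mul_nonneg (ind_nonneg _) (Finset.sum_nonneg fun l _ => Finset.sum_nonneg fun l' _ => n5 l l')
  by_cases hO : O (view θ c) ∈ Hol θ
  swap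
  · rw [ind_false hO]; linarith
  by_cases hg : Good c
  swap
  · rw [ind_true hg]; linarith [ind_le_one (O (view θ c) ∈ Hol θ)]
  obtain ⟨i, j, hij, hi, hj⟩ := hO
  by_cases h1 : ∀ l, (c l).1.1 ≠ i
  · have h2 := Finset.single_le_sum (f := fun i : K d w =>
      ind ((∀ l, (c l).1.1 ≠ i) ∧ θ.1 i = (O (view θ c)).1)) (fun i _ => ind_nonneg _) (mem_univ i)
    have h3 : (1 : ℝ) ≤ ∑ i : K d w, ind ((∀ l, (c l).1.1 ≠ i) ∧ θ.1 i = (O (view θ c)).1) :=
      le_trans (le_of_eq (ind_true ⟨h1, hi⟩).symm) h2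
    linarith [ind_le_one (O (view θ c) ∈ Hol θ)]
  by_cases h1' : ∀ l, (c l).1.2 ≠ j
  · have h2 := Finset.single_le_sum (f := fun i : K d w =>
      ind ((∀ l, (c l).1.2 ≠ i) ∧ θ.2 i = (O (view θ c)).2)) (fun i _ => ind_nonneg _) (mem_univ j)
    have h3 : (1 : ℝ) ≤ ∑ i : K d w, ind ((∀ l, (c l).1.2 ≠ i) ∧ θ.2 i = (O (view θ c)).2) :=
      le_trans (le_of_eq (ind_true ⟨h1', hj⟩).symm) h2
    linarith [ind_le_one (O (view θ c) ∈ Hol θ)]
  push Not at h1 h1'
  obtain ⟨l, hl⟩ := h1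
  obtain ⟨l', hl'⟩ := h1'
  have hne : l ≠ l' := by
    intro h
    subst h
    exact (c l).2 (by rw [hl, hl']; exact hij)
  have e1 : ind ((c l).1.1.1 = (c l').1.2.1) *
        ind (l ≠ l' ∧ (view θ c l).1 = (O (view θ c)).1 ∧
          (view θ c l').2 = (O (view θ c)).2) = 1 := by
    rw [ind_true (by rw [hl, hl']; exact hij), ind_true, one_mul]
    refine ⟨hne, ?_, ?_⟩
    · show θ.1 (c l).1.1 = _
      rw [hl]; exact hi
    · show θ.2 (c l').1.2 = _
      rw [hl']; exact hj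
  have h2 := Finset.single_le_sum (f := fun l' => ind ((c l).1.1.1 = (c l').1.2.1) *
        ind (l ≠ l' ∧ (view θ c l).1 = (O (view θ c)).1 ∧
          (view θ c l').2 = (O (view θ c)).2)) (fun l' _ => n5 l l') (mem_univ l')
  have h3 := Finset.single_le_sum (f := fun l => ∑ l', ind ((c l).1.1.1 = (c l').1.2.1) *
        ind (l ≠ l' ∧ (view θ c l).1 = (O (view θ c)).1 ∧
          (view θ c l').2 = (O (view θ c)).2))
    (fun l _ => Finset.sum_nonneg fun l' _ => n5 l l') (mem_univ l)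
  have h4 : (1 : ℝ) ≤ ∑ l, ∑ l', ind ((c l).1.1.1 = (c l').1.2.1) *
        ind (l ≠ l' ∧ (view θ c l).1 = (O (view θ c)).1 ∧
          (view θ c l').2 = (O (view θ c)).2) := le_trans (le_trans (le_of_eq e1.symm) h2) h3
  rw [ind_true hg, one_mul]
  linarith [ind_le_one (O (view θ c) ∈ Hol θ)]

theorem finite_main (hd : 2 ≤ d) (hw : 1 ≤ w) (hn : 0 < n)
    (N : (Fin L → Pt n) → ℕ) (O : (Fin L → Pt n) → Pt n) (hNO : Adapted N O) :
    (d : ℝ) * ∑ θ : Th d w n, ∑ c : Fin L → Lat d w, ind (O (view θ c) ∈ Hol θ)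
      ≤ ∑ θ : Th d w n, ∑ c : Fin L → Lat d w, ind (2 ≤ N (view θ c))
        + (Fintype.card (Th d w n) : ℝ) * Fintype.card (Fin L → Lat d w) *
          ((d + 1) * (2 * L ^ 2) / (d * w)
            + (2 * d ^ 2 * w + L ^ 2 * (2 * L ^ 2 + 2 * L)) / n) := by
  set T : ℝ := (Fintype.card (Th d w n) : ℝ) with hT
  set C : ℝ := (Fintype.card (Fin L → Lat d w) : ℝ) with hC
  set V : ℝ := (Fintype.card (Fin L → Pt n) : ℝ) with hV
  set G : ℝ := ∑ c : Fin L → Lat d w, ind (¬ Good c) with hG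
  set B0 : ℝ := ∑ θ : Th d w n, ∑ c : Fin L → Lat d w, ind (2 ≤ N (view θ c)) with hB0
  set Y : ℝ := ∑ v : Fin L → Pt n, ind (2 ≤ N v) with hY
  set Bv : ℝ := ∑ v : Fin L → Pt n, ind (BadV N O v) with hBv
  set S2 : ℝ := ∑ θ : Th d w n, ∑ c : Fin L → Lat d w,
    ∑ i : K d w, ind ((∀ l, (c l).1.1 ≠ i) ∧ θ.1 i = (O (view θ c)).1) with hS2
  set S3 : ℝ := ∑ θ : Th d w n, ∑ c : Fin L → Lat d w,
    ∑ i : K d w, ind ((∀ l, (c l).1.2 ≠ i) ∧ θ.2 i = (O (view θ c)).2) with hS3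
  set R : ℝ := ∑ θ : Th d w n, ∑ c : Fin L → Lat d w,
    ind (Good c) * ∑ l, ∑ l', ind ((c l).1.1.1 = (c l').1.2.1) *
      ind (l ≠ l' ∧ (view θ c l).1 = (O (view θ c)).1 ∧
        (view θ c l').2 = (O (view θ c)).2) with hR
  have hd0 : (0 : ℝ) < d := by exact_mod_cast (by omega : 0 < d)
  have hw0 : (0 : ℝ) < w := by exact_mod_cast (by omega : 0 < w)
  have hn0 : (0 : ℝ) < n := by exact_mod_cast hn
  have hT0 : 0 ≤ T := by positivity
  have hC0 : 0 ≤ C := by positivity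
  have hV0 : 0 < V := by
    haveI : Nonempty (Fin n) := ⟨⟨0, hn⟩⟩
    rw [hV]; exact_mod_cast Fintype.card_pos
  have hG0 : 0 ≤ G := Finset.sum_nonneg fun c _ => ind_nonneg _
  have hY0 : 0 ≤ Y := Finset.sum_nonneg fun c _ => ind_nonneg _
  have hBv0 : 0 ≤ Bv := Finset.sum_nonneg fun c _ => ind_nonneg _
  have hYV : Y ≤ V := by
    rw [hY, hV]
    refine (Finset.sum_le_sum fun v _ => ind_le_one _).trans ?_
    simp
  -- the pointwise bound
  have h0 : ∑ θ : Th d w n, ∑ c : Fin L → Lat d w, ind (O (view θ c) ∈ Hol θ)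
      ≤ T * G + S2 + S3 + R := by
    refine (Finset.sum_le_sum fun θ _ => Finset.sum_le_sum fun c _ => hole_le O θ c).trans ?_
    simp only [Finset.sum_add_distrib]
    have : ∑ _θ : Th d w n, ∑ c : Fin L → Lat d w, ind (¬ Good c) = T * G := by
      rw [Finset.sum_const, Finset.card_univ, nsmul_eq_mul]
    rw [this]
  -- unseen labels
  have h2 : (n : ℝ) * S2 ≤ C * (d * w) * T := by
    rw [hS2, Finset.sum_comm, Finset.mul_sum]
    have : ∀ c : Fin L → Lat d w, (n : ℝ) * ∑ θ : Th d w n, ∑ i : K d w,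
        ind ((∀ l, (c l).1.1 ≠ i) ∧ θ.1 i = (O (view θ c)).1) ≤ (d * w) * T := by
      intro c
      rw [Finset.sum_comm, Finset.mul_sum]
      have h3 : ∀ i : K d w, (n : ℝ) * ∑ θ : Th d w n,
          ind ((∀ l, (c l).1.1 ≠ i) ∧ θ.1 i = (O (view θ c)).1) ≤ T := by
        intro i
        by_cases hi : ∀ l, (c l).1.1 ≠ i
        · refine le_trans ?_ (unseen_x O c i hi)
          apply mul_le_mul_of_nonneg_left _ hn0.le
          exact Finset.sum_le_sum fun θ _ => ind_mono fun h => h.2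
        · rw [Finset.sum_congr rfl fun θ _ => ind_false
            (P := (∀ l, (c l).1.1 ≠ i) ∧ θ.1 i = (O (view θ c)).1) (fun h => hi h.1)]
          simpa using hT0
      refine (Finset.sum_le_sum fun i _ => h3 i).trans ?_
      simp
    refine (Finset.sum_le_sum fun c _ => this c).trans ?_
    rw [Finset.sum_const, Finset.card_univ, nsmul_eq_mul, ← hC]
    exact le_of_eq (by ring)
  have h3 : (n : ℝ) * S3 ≤ C * (d * w) * T := by
    rw [hS3, Finset.sum_comm, Finset.mul_sum]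
    have : ∀ c : Fin L → Lat d w, (n : ℝ) * ∑ θ : Th d w n, ∑ i : K d w,
        ind ((∀ l, (c l).1.2 ≠ i) ∧ θ.2 i = (O (view θ c)).2) ≤ (d * w) * T := by
      intro c
      rw [Finset.sum_comm, Finset.mul_sum]
      have h3 : ∀ i : K d w, (n : ℝ) * ∑ θ : Th d w n,
          ind ((∀ l, (c l).1.2 ≠ i) ∧ θ.2 i = (O (view θ c)).2) ≤ T := by
        intro i
        by_cases hi : ∀ l, (c l).1.2 ≠ i
        · refine le_trans ?_ (unseen_y O c i hi)
          apply mul_le_mul_of_nonneg_left _ hn0.le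
          exact Finset.sum_le_sum fun θ _ => ind_mono fun h => h.2
        · rw [Finset.sum_congr rfl fun θ _ => ind_false
            (P := (∀ l, (c l).1.2 ≠ i) ∧ θ.2 i = (O (view θ c)).2) (fun h => hi h.1)]
          simpa using hT0
      refine (Finset.sum_le_sum fun i _ => h3 i).trans ?_
      simp
    refine (Finset.sum_le_sum fun c _ => this c).trans ?_
    rw [Finset.sum_const, Finset.card_univ, nsmul_eq_mul, ← hC]
    exact le_of_eq (by ring)
  -- two different samples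
  have h4 : V * (d * R) ≤ T * C * (Y + L ^ 2 * Bv) := by
    set F : Fin L → Fin L → ℝ := fun l l' =>
      ∑ v : Fin L → Pt n, ind (l ≠ l' ∧ (v l).1 = (O v).1 ∧ (v l').2 = (O v).2) with hF
    have hF0 : ∀ l l', 0 ≤ F l l' := fun l l' => Finset.sum_nonneg fun v _ => ind_nonneg _
    have k1 : V * R ≤ ∑ c : Fin L → Lat d w, ∑ l, ∑ l',
        ind ((c l).1.1.1 = (c l').1.2.1) * (T * F l l') := by
      rw [hR, Finset.sum_comm, Finset.mul_sum]
      refine Finset.sum_le_sum fun c _ => ?_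
      by_cases hg : Good c
      · have k2 : ∀ θ : Th d w n, ind (Good c) * ∑ l, ∑ l', ind ((c l).1.1.1 = (c l').1.2.1) *
            ind (l ≠ l' ∧ (view θ c l).1 = (O (view θ c)).1 ∧
              (view θ c l').2 = (O (view θ c)).2)
            = ∑ l, ∑ l', ind ((c l).1.1.1 = (c l').1.2.1) *
            ind (l ≠ l' ∧ (view θ c l).1 = (O (view θ c)).1 ∧
              (view θ c l').2 = (O (view θ c)).2) := by
          intro θ; rw [ind_true hg, one_mul]
        rw [Finset.sum_congr rfl fun θ _ => k2 θ, Finset.sum_comm, Finset.mul_sum]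
        refine Finset.sum_le_sum fun l _ => ?_
        rw [Finset.sum_comm, Finset.mul_sum]
        refine Finset.sum_le_sum fun l' _ => ?_
        rw [← Finset.mul_sum, ← mul_assoc, mul_comm V, mul_assoc]
        refine le_of_eq ?_
        congr 1
        exact unif_view c hg (fun v => ind (l ≠ l' ∧ (v l).1 = (O v).1 ∧ (v l').2 = (O v).2))
      · have k2 : ∀ θ : Th d w n, ind (Good c) * ∑ l, ∑ l', ind ((c l).1.1.1 = (c l').1.2.1) *
            ind (l ≠ l' ∧ (view θ c l).1 = (O (view θ c)).1 ∧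
              (view θ c l').2 = (O (view θ c)).2) = 0 := by
          intro θ; rw [ind_false hg, zero_mul]
        rw [Finset.sum_congr rfl fun θ _ => k2 θ]
        simp only [Finset.sum_const_zero, mul_zero]
        exact Finset.sum_nonneg fun l _ => Finset.sum_nonneg fun l' _ =>
          mul_nonneg (ind_nonneg _) (mul_nonneg hT0 (hF0 l l'))
    have k3 : (d : ℝ) * ∑ c : Fin L → Lat d w, ∑ l, ∑ l',
        ind ((c l).1.1.1 = (c l').1.2.1) * (T * F l l') ≤ ∑ l, ∑ l', C * (T * F l l') := by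
      rw [Finset.sum_comm, Finset.mul_sum]
      refine Finset.sum_le_sum fun l _ => ?_
      rw [Finset.sum_comm, Finset.mul_sum]
      refine Finset.sum_le_sum fun l' _ => ?_
      by_cases hll : l = l'
      · have : F l l' = 0 := by
          rw [hF]
          exact Finset.sum_eq_zero fun v _ => ind_false fun h => h.1 hll
        rw [this]; simp
      · rw [← Finset.sum_mul, ← mul_assoc]
        exact mul_le_mul_of_nonneg_right (cls_xy hd hw l l' hll) (mul_nonneg hT0 (hF0 l l'))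
    have k4 : ∑ l, ∑ l', C * (T * F l l') = T * C * ∑ v : Fin L → Pt n, hits O v := by
      have : ∑ v : Fin L → Pt n, hits O v = ∑ l, ∑ l', F l l' := by
        unfold hits
        rw [Finset.sum_comm]
        refine Finset.sum_congr rfl fun l _ => ?_
        rw [Finset.sum_comm]
      rw [this, Finset.mul_sum]
      refine Finset.sum_congr rfl fun l _ => ?_
      rw [Finset.mul_sum]
      refine Finset.sum_congr rfl fun l' _ => ?_
      ring
    have k5 : ∑ v : Fin L → Pt n, hits O v ≤ Y + L ^ 2 * Bv := by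
      refine (Finset.sum_le_sum fun v _ => hits_le N O v).trans ?_
      rw [Finset.sum_add_distrib, ← Finset.mul_sum]
    calc V * (d * R) = d * (V * R) := by ring
      _ ≤ d * ∑ c : Fin L → Lat d w, ∑ l, ∑ l',
        ind ((c l).1.1.1 = (c l').1.2.1) * (T * F l l') :=
          mul_le_mul_of_nonneg_left k1 hd0.le
      _ ≤ T * C * ∑ v : Fin L → Pt n, hits O v := k3.trans (le_of_eq k4)
      _ ≤ T * C * (Y + L ^ 2 * Bv) := mul_le_mul_of_nonneg_left k5 (mul_nonneg hT0 hC0)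
  -- views of uniform samples against real views
  have h5 : T * (C - G) * Y ≤ V * B0 := by
    have k1 : ∑ c : Fin L → Lat d w, ind (Good c) = C - G := by
      have : ∀ c : Fin L → Lat d w, ind (Good c) = 1 - ind (¬ Good c) := by
        intro c
        by_cases hg : Good c
        · rw [ind_true hg, ind_false (by simpa using hg)]; ring
        · rw [ind_false hg, ind_true hg]; ring
      rw [Finset.sum_congr rfl fun c _ => this c, Finset.sum_sub_distrib]
      simp [hC, hG]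
    have k2 : V * B0 = ∑ c : Fin L → Lat d w, V * ∑ θ : Th d w n, ind (2 ≤ N (view θ c)) := by
      rw [hB0, Finset.sum_comm, Finset.mul_sum]
    rw [k2, ← k1, mul_comm T, mul_assoc, Finset.sum_mul]
    refine Finset.sum_le_sum fun c _ => ?_
    by_cases hg : Good c
    · rw [ind_true hg, one_mul]
      exact le_of_eq (unif_view c hg (fun v => ind (2 ≤ N v))).symm
    · rw [ind_false hg, zero_mul]
      exact mul_nonneg hV0.le (Finset.sum_nonneg fun θ _ => ind_nonneg _)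
  have h6 : (n : ℝ) * Bv ≤ (2 * L ^ 2 + 2 * L) * V := sum_badV N O hNO hn
  have h7 : ((d : ℝ) * w) * G ≤ 2 * L ^ 2 * C := sum_not_good hd hw
  -- assembly
  have hdw : (0 : ℝ) < d * w := mul_pos hd0 hw0
  have g1 : G ≤ 2 * L ^ 2 * C / (d * w) := by rw [le_div_iff₀ hdw]; linarith
  have g2 : Bv ≤ (2 * L ^ 2 + 2 * L) * V / n := by rw [le_div_iff₀ hn0]; linarith
  have g3 : S2 ≤ C * (d * w) * T / n := by rw [le_div_iff₀ hn0]; linarith
  have g4 : S3 ≤ C * (d * w) * T / n := by rw [le_div_iff₀ hn0]; linarith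
  have g5 : d * R ≤ B0 + T * G + T * C * (L ^ 2 * (2 * L ^ 2 + 2 * L)) / n := by
    have : V * (d * R) ≤ V * (B0 + T * G + T * C * (L ^ 2 * (2 * L ^ 2 + 2 * L)) / n) := by
      have q1 : T * C * (L ^ 2 * Bv) ≤ T * C * (L ^ 2 * ((2 * L ^ 2 + 2 * L) * V / n)) := by
        apply mul_le_mul_of_nonneg_left _ (mul_nonneg hT0 hC0)
        exact mul_le_mul_of_nonneg_left g2 (by positivity)
      have q2 : T * G * Y ≤ T * G * V := mul_le_mul_of_nonneg_left hYV (mul_nonneg hT0 hG0)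
      have q3 : T * C * (L ^ 2 * ((2 * L ^ 2 + 2 * L) * V / n))
          = V * (T * C * (L ^ 2 * (2 * L ^ 2 + 2 * L)) / n) := by ring
      nlinarith [h4, h5, q1, q2, q3]
    exact le_of_mul_le_mul_left this hV0
  have g6 : T * G * (d + 1) ≤ T * (2 * L ^ 2 * C / (d * w)) * (d + 1) := by
    apply mul_le_mul_of_nonneg_right _ (by positivity)
    exact mul_le_mul_of_nonneg_left g1 hT0
  have g7 : (d : ℝ) * ∑ θ : Th d w n, ∑ c : Fin L → Lat d w, ind (O (view θ c) ∈ Hol θ)
      ≤ d * (T * G + S2 + S3 + R) := mul_le_mul_of_nonneg_left h0 hd0.le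
  have g8 : (d : ℝ) * S2 ≤ d * (C * (d * w) * T / n) := mul_le_mul_of_nonneg_left g3 hd0.le
  have g9 : (d : ℝ) * S3 ≤ d * (C * (d * w) * T / n) := mul_le_mul_of_nonneg_left g4 hd0.le
  have g10 : T * C * ((d + 1) * (2 * L ^ 2) / (d * w)
            + (2 * d ^ 2 * w + L ^ 2 * (2 * L ^ 2 + 2 * L)) / n)
      = T * (2 * L ^ 2 * C / (d * w)) * (d + 1) + 2 * (d * (C * (d * w) * T / n))
        + T * C * (L ^ 2 * (2 * L ^ 2 + 2 * L)) / n := by
    field_simp
    ring
  rw [g10]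
  nlinarith [g5, g6, g7, g8, g9]

end

end Pool.Agent.H525R5.Corr
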