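import Pool.Agent.H525R5.Corr.Inst
import Pool.Agent.H525R5.Corr.Main

/-!
# The lower bound for the first output
-/

namespace Pool.Agent.H525R5.Corr

open Finset Function MeasureTheory
open scoped Classical ENNReal

noncomputable section

variable {d w n L : ℕ}

/-- a finite sequence of samples, continued by a constant -/
def ext (x0 : Pt n) (v : Fin L → Pt n) : ℕ → Pt n := fun i => if h : i < L then v ⟨i, h⟩ else x0

lemma adapted0 (M : Corrector n) (ω : M.Ω) (s s' : ℕ → Pt n)
    (h : ∀ i < M.need 0 (ω, s), s i = s' i) :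
    M.need 0 (ω, s') = M.need 0 (ω, s) ∧ M.out 0 (ω, s') = M.out 0 (ω, s) := by
  have := M.adapted 0 ω s s' (by simpa using h)
  exact ⟨this.1 0 le_rfl, this.2⟩

lemma adapted_view (M : Corrector n) (ω : M.Ω) (x0 : Pt n) :
    Adapted (L := L) (fun v => M.need 0 (ω, ext x0 v)) (fun v => M.out 0 (ω, ext x0 v)) := by
  intro v l a hl
  refine adapted0 M ω _ _ fun i hi => ?_
  have hil : i < (l : ℕ) := lt_of_lt_of_le hi hl
  have hiL : i < L := hil.trans l.2
  unfold ext
  rw [dif_pos hiL, dif_pos hiL, update_of_ne]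
  intro h
  rw [← h] at hil
  exact lt_irrefl _ hil

lemma restrict_view (M : Corrector n) (ω : M.Ω) (x0 : Pt n) (s : ℕ → Pt n)
    (h : M.need 0 (ω, s) ≤ L) :
    M.need 0 (ω, ext x0 (fun l : Fin L => s l)) = M.need 0 (ω, s) ∧
      M.out 0 (ω, ext x0 (fun l : Fin L => s l)) = M.out 0 (ω, s) := by
  refine adapted0 M ω _ _ fun i hi => ?_
  unfold ext
  rw [dif_pos (lt_of_lt_of_le hi h)]

variable [Fact (2 ≤ d)] [Fact (1 ≤ w)]

/-- the law of the samples -/
abbrev smp (θ : Th d w n) : Measure (ℕ → Pt n) :=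
  Measure.infinitePi (fun _ : ℕ => (inst θ).toMeasure)

/-- the error term -/
def err (d w n L : ℕ) : ℝ :=
  (d + 1) * (2 * L ^ 2) / (d * w) + (2 * d ^ 2 * w + L ^ 2 * (2 * L ^ 2 + 2 * L)) / n

omit [Fact (2 ≤ d)] [Fact (1 ≤ w)] in
lemma err_nonneg : 0 ≤ err d w n L := by unfold err; positivity

lemma omega_ineq (M : Corrector n) (ω : M.Ω) (hL : 1 ≤ L) (hn : 0 < n) :
    (d : ℝ) * ∑ θ : Th d w n, (smp θ).real {s | M.need 0 (ω, s) ≤ L ∧ M.out 0 (ω, s) ∈ Hol θ}
      ≤ ∑ θ : Th d w n, (smp θ).real {s | 2 ≤ M.need 0 (ω, s)}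
        + (Fintype.card (Th d w n) : ℝ) * err d w n L := by
  have hd : 2 ≤ d := Fact.out
  have hw : 1 ≤ w := Fact.out
  have hd0 : (0 : ℝ) < d := by exact_mod_cast (by omega : 0 < d)
  let x0 : Pt n := (⟨0, hn⟩, ⟨0, hn⟩)
  have hmain := finite_main hd hw hn (L := L) (fun v => M.need 0 (ω, ext x0 v))
    (fun v => M.out 0 (ω, ext x0 v)) (adapted_view M ω x0)
  have hC : (0 : ℝ) < (Fintype.card (Fin L → Lat d w) : ℝ) := by
    exact_mod_cast Fintype.card_pos
  have h1 : ∀ θ : Th d w n, (smp θ).real {s | M.need 0 (ω, s) ≤ L ∧ M.out 0 (ω, s) ∈ Hol θ}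
      ≤ (∑ c : Fin L → Lat d w, ind (M.out 0 (ω, ext x0 (view θ c)) ∈ Hol θ))
        / (Fintype.card (Fin L → Lat d w) : ℝ) := by
    intro θ
    rw [← real_cyl θ (fun v : Fin L → Pt n => M.out 0 (ω, ext x0 v) ∈ Hol θ)]
    refine measureReal_mono ?_ (measure_ne_top _ _)
    rintro s ⟨hs1, hs2⟩
    show M.out 0 (ω, ext x0 (fun l : Fin L => s l)) ∈ Hol θ
    rw [(restrict_view M ω x0 s hs1).2]
    exact hs2
  have h2 : ∀ θ : Th d w n,
      (∑ c : Fin L → Lat d w, ind (2 ≤ M.need 0 (ω, ext x0 (view θ c))))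
        / (Fintype.card (Fin L → Lat d w) : ℝ) ≤ (smp θ).real {s | 2 ≤ M.need 0 (ω, s)} := by
    intro θ
    rw [← real_cyl θ (fun v : Fin L → Pt n => 2 ≤ M.need 0 (ω, ext x0 v))]
    refine measureReal_mono ?_ (measure_ne_top _ _)
    intro s hs
    by_contra hlt
    have hlt' : M.need 0 (ω, s) < 2 := not_le.mp hlt
    have h3 := (restrict_view (L := L) M ω x0 s (by omega)).1
    have h4 : 2 ≤ M.need 0 (ω, ext x0 (fun l : Fin L => s l)) := hs
    omega
  calc (d : ℝ) * ∑ θ : Th d w n,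
        (smp θ).real {s | M.need 0 (ω, s) ≤ L ∧ M.out 0 (ω, s) ∈ Hol θ}
      ≤ d * ∑ θ : Th d w n,
        (∑ c : Fin L → Lat d w, ind (M.out 0 (ω, ext x0 (view θ c)) ∈ Hol θ))
        / (Fintype.card (Fin L → Lat d w) : ℝ) :=
        mul_le_mul_of_nonneg_left (Finset.sum_le_sum fun θ _ => h1 θ) hd0.le
    _ = (d * ∑ θ : Th d w n, ∑ c : Fin L → Lat d w,
        ind (M.out 0 (ω, ext x0 (view θ c)) ∈ Hol θ))
        / (Fintype.card (Fin L → Lat d w) : ℝ) := by
        rw [← Finset.sum_div, mul_div_assoc]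
    _ ≤ (∑ θ : Th d w n, ∑ c : Fin L → Lat d w, ind (2 ≤ M.need 0 (ω, ext x0 (view θ c)))
        + (Fintype.card (Th d w n) : ℝ) * Fintype.card (Fin L → Lat d w) * err d w n L)
        / (Fintype.card (Fin L → Lat d w) : ℝ) :=
        div_le_div_of_nonneg_right hmain hC.le
    _ = ∑ θ : Th d w n, (∑ c : Fin L → Lat d w, ind (2 ≤ M.need 0 (ω, ext x0 (view θ c))))
        / (Fintype.card (Fin L → Lat d w) : ℝ) + (Fintype.card (Th d w n) : ℝ) * err d w n L := by
        rw [add_div, ← Finset.sum_div]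
        congr 1
        field_simp
    _ ≤ _ := by
        gcongr with θ _
        exact h2 θ

lemma meas_hol (M : Corrector n) (θ : Th d w n) :
    MeasurableSet {z : M.Ω × (ℕ → Pt n) | M.need 0 z ≤ L ∧ M.out 0 z ∈ Hol θ} := by
  refine MeasurableSet.inter ?_ ?_
  · exact M.need_meas 0 (measurableSet_Iic (a := L))
  · exact M.out_meas 0 (MeasurableSet.of_discrete (s := Hol θ))

lemma meas_two (M : Corrector n) (k : ℕ) :
    MeasurableSet {z : M.Ω × (ℕ → Pt n) | k ≤ M.need 0 z} :=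
  M.need_meas 0 (measurableSet_Ici (a := k))

lemma avg_ineq (M : Corrector n) (hL : 1 ≤ L) (hn : 0 < n) :
    ENNReal.ofReal d * ∑ θ : Th d w n, M.law (inst θ) {z | M.need 0 z ≤ L ∧ M.out 0 z ∈ Hol θ}
      ≤ ∑ θ : Th d w n, M.law (inst θ) {z | 2 ≤ M.need 0 z}
        + ENNReal.ofReal ((Fintype.card (Th d w n) : ℝ) * err d w n L) := by
  have h1 : ∀ θ : Th d w n, M.law (inst θ) {z | M.need 0 z ≤ L ∧ M.out 0 z ∈ Hol θ}
      = ∫⁻ ω, smp θ {s | M.need 0 (ω, s) ≤ L ∧ M.out 0 (ω, s) ∈ Hol θ} ∂M.μ := by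
    intro θ
    unfold Corrector.law
    rw [Measure.prod_apply (meas_hol M θ)]
    rfl
  have h2 : ∀ θ : Th d w n, M.law (inst θ) {z | 2 ≤ M.need 0 z}
      = ∫⁻ ω, smp θ {s | 2 ≤ M.need 0 (ω, s)} ∂M.μ := by
    intro θ
    unfold Corrector.law
    rw [Measure.prod_apply (meas_two M 2)]
    rfl
  have m1 : ∀ θ : Th d w n, Measurable
      (fun ω => smp θ {s | M.need 0 (ω, s) ≤ L ∧ M.out 0 (ω, s) ∈ Hol θ}) := fun θ =>
    measurable_measure_prodMk_left (ν := smp θ) (meas_hol M θ)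
  have m2 : ∀ θ : Th d w n, Measurable (fun ω => smp θ {s | 2 ≤ M.need 0 (ω, s)}) := fun θ =>
    measurable_measure_prodMk_left (ν := smp θ) (meas_two M 2)
  rw [Finset.sum_congr rfl fun θ _ => h1 θ, Finset.sum_congr rfl fun θ _ => h2 θ,
    ← lintegral_finset_sum _ (fun θ _ => m1 θ), ← lintegral_finset_sum _ (fun θ _ => m2 θ),
    ← lintegral_const_mul _ (Finset.measurable_sum _ fun θ _ => m1 θ)]
  have h3 : ENNReal.ofReal ((Fintype.card (Th d w n) : ℝ) * err d w n L)
      = ∫⁻ _ω, ENNReal.ofReal ((Fintype.card (Th d w n) : ℝ) * err d w n L) ∂M.μ := by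
    rw [lintegral_const, measure_univ, mul_one]
  rw [h3, ← lintegral_add_left (Finset.measurable_sum _ fun θ _ => m2 θ)]
  refine lintegral_mono fun ω => ?_
  have h4 := omega_ineq (d := d) (w := w) M ω hL hn
  have e1 : ∀ (θ : Th d w n) (E : Set (ℕ → Pt n)), smp θ E = ENNReal.ofReal ((smp θ).real E) :=
    fun θ E => (ofReal_measureReal (measure_ne_top _ _)).symm
  simp only [e1]
  rw [← ENNReal.ofReal_sum_of_nonneg (fun θ _ => measureReal_nonneg),
    ← ENNReal.ofReal_sum_of_nonneg (fun θ _ => measureReal_nonneg),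
    ← ENNReal.ofReal_mul (by positivity), ← ENNReal.ofReal_add
    (Finset.sum_nonneg fun θ _ => measureReal_nonneg)
    (mul_nonneg (by positivity) err_nonneg)]
  exact ENNReal.ofReal_le_ofReal h4

/-- the product distributions close to `p`, as a measurable condition -/
def GoodSet (p : PMF (Pt n)) (e : ℝ) : Set (Pt n → ℝ) :=
  {v | (∀ x y, v (x, y) = (∑ y', v (x, y')) * (∑ x', v (x', y))) ∧ TVLe (vec p) v e}

omit [Fact (2 ≤ d)] [Fact (1 ≤ w)] in
lemma meas_good (p : PMF (Pt n)) (e : ℝ) : MeasurableSet (GoodSet p e) := by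
  have h : GoodSet p e = (⋂ x, ⋂ y, {v : Pt n → ℝ | v (x, y)
      = (∑ y', v (x, y')) * (∑ x', v (x', y))}) ∩
      (⋂ A : Finset (Pt n), {v | ∑ s ∈ A, vec p s - ∑ s ∈ A, v s ≤ e}) := by
    ext v
    simp only [GoodSet, TVLe, Set.mem_inter_iff, Set.mem_iInter, Set.mem_ofPred_eq]
  rw [h]
  refine MeasurableSet.inter ?_ ?_
  · refine MeasurableSet.iInter fun x => MeasurableSet.iInter fun y => ?_
    refine measurableSet_eq_fun (by fun_prop) ?_
    refine Measurable.mul ?_ ?_
    · exact Finset.measurable_sum _ fun i _ => by fun_prop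
    · exact Finset.measurable_sum _ fun i _ => by fun_prop
  · refine MeasurableSet.iInter fun A => ?_
    refine measurableSet_le ?_ measurable_const
    refine Measurable.sub measurable_const ?_
    exact Finset.measurable_sum _ fun i _ => by fun_prop

omit [Fact (2 ≤ d)] [Fact (1 ≤ w)] in
lemma isProduct_marg (v : Pt n → ℝ) (h : IsProduct v) (x y : Fin n) :
    v (x, y) = (∑ y', v (x, y')) * (∑ x', v (x', y)) := by
  obtain ⟨a, b, ⟨-, ha⟩, ⟨-, hb⟩, hab⟩ := h
  have h1 : ∑ y', v (x, y') = a x := by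
    rw [Finset.sum_congr rfl fun y' _ => hab x y', ← Finset.mul_sum, hb, mul_one]
  have h2 : ∑ x', v (x', y) = b y := by
    rw [Finset.sum_congr rfl fun x' _ => hab x' y, ← Finset.sum_mul, ha, one_mul]
  rw [h1, h2, hab]

omit [Fact (2 ≤ d)] [Fact (1 ≤ w)] in
lemma isProduct_of (v : Pt n → ℝ) (hv : IsProb v)
    (h : ∀ x y, v (x, y) = (∑ y', v (x, y')) * (∑ x', v (x', y))) : IsProduct v := by
  refine ⟨fun x => ∑ y', v (x, y'), fun y => ∑ x', v (x', y), ⟨?_, ?_⟩, ⟨?_, ?_⟩, h⟩
  · exact fun x => Finset.sum_nonneg fun y _ => hv.1 _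
  · rw [← hv.2, Fintype.sum_prod_type]
  · exact fun x => Finset.sum_nonneg fun y _ => hv.1 _
  · rw [← hv.2, Fintype.sum_prod_type, Finset.sum_comm]

lemma hole_prob (M : Corrector n) (C δ : ℝ)
    (hM : M.Corrects C δ (1 / d)) (θ : Th d w n) (h1 : Injective θ.1) (h2 : Injective θ.2) :
    ENNReal.ofReal ((1 - 2 * (C * (1 / d))) / d) * ENNReal.ofReal (1 - δ)
      ≤ M.law (inst θ) {z | M.out 0 z ∈ Hol θ} := by
  obtain ⟨D, hDm, hDp, hiid, hgood⟩ := hM (inst θ) (admissible_inst θ)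
  set Gd := GoodSet (inst θ) (C * (1 / d)) with hGd
  have hGm : MeasurableSet Gd := meas_good _ _
  have hz : MeasurableSet {z | D z ∈ Gd} := hDm hGm
  have s1 : M.law (inst θ) {z | IsProduct (D z) ∧ TVLe (vec (inst θ)) (D z) (C * (1 / d))}
      ≤ M.law (inst θ) {z | D z ∈ Gd} := by
    refine measure_mono ?_
    rintro z ⟨hz1, hz2⟩
    exact ⟨isProduct_marg _ hz1, hz2⟩
  have s2 : ∀ o : Pt n, M.law (inst θ) {z | D z ∈ Gd ∧ M.out 0 z = o}
      = ∫⁻ z in {z | D z ∈ Gd}, ENNReal.ofReal (D z o) ∂(M.law (inst θ)) := by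
    intro o
    have := hiid 1 (fun _ => o) Gd hGm
    simp only [Nat.lt_one_iff, forall_eq, Finset.prod_range_one] at this
    exact this
  have s3 : ∑ o ∈ univ.filter (fun s => s ∈ Hol θ),
      M.law (inst θ) {z | D z ∈ Gd ∧ M.out 0 z = o}
      ≤ M.law (inst θ) {z | M.out 0 z ∈ Hol θ} := by
    rw [← measure_biUnion_finset]
    · refine measure_mono ?_
      intro z hz
      simp only [Set.mem_iUnion, Finset.mem_filter, Finset.mem_univ, true_and, exists_prop] at hz
      obtain ⟨o, ho, -, hz3⟩ := hz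
      show M.out 0 z ∈ Hol θ
      rw [hz3]; exact ho
    · intro o _ o' _ hne
      refine Set.disjoint_left.mpr ?_
      rintro z ⟨-, hz1⟩ ⟨-, hz2⟩
      exact hne (hz1.symm.trans hz2)
    · intro o _
      exact hz.inter (M.out_meas 0 (measurableSet_singleton o))
  refine le_trans ?_ s3
  rw [Finset.sum_congr rfl fun o _ => s2 o, ← lintegral_finset_sum _ (fun o _ => by
    have : Measurable fun z => D z o := (measurable_pi_apply o).comp hDm
    exact this.ennreal_ofReal)]
  calc ENNReal.ofReal ((1 - 2 * (C * (1 / d))) / d) * ENNReal.ofReal (1 - δ)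
      ≤ ENNReal.ofReal ((1 - 2 * (C * (1 / d))) / d) * M.law (inst θ) {z | D z ∈ Gd} :=
        mul_le_mul_right (hgood.trans s1) _
    _ = ∫⁻ _z in {z | D z ∈ Gd}, ENNReal.ofReal ((1 - 2 * (C * (1 / d))) / d)
          ∂(M.law (inst θ)) := by
        rw [setLIntegral_const]
    _ ≤ _ := by
        refine setLIntegral_mono' hz ?_
        intro z hzz
        rw [← ENNReal.ofReal_sum_of_nonneg (fun o _ => (hDp z).1 o)]
        refine ENNReal.ofReal_le_ofReal ?_
        exact hole_mass θ h1 h2 (D z) (isProduct_of _ (hDp z) hzz.1) _ hzz.2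

/-- few pairs of labellings are not injective -/
lemma sum_not_inj (hn : 0 < n) :
    (n : ℝ) * ∑ θ : Th d w n, ind (¬ (Injective θ.1 ∧ Injective θ.2))
      ≤ 2 * (d * w) ^ 2 * Fintype.card (Th d w n) := by
  have hn' : (0 : ℝ) < n := by exact_mod_cast hn
  have h1 : (n : ℝ) * ∑ σ : K d w → Fin n, ind (¬ Injective σ)
      ≤ (d * w) ^ 2 * Fintype.card (K d w → Fin n) := by
    have hp : ∀ σ : K d w → Fin n, ind (¬ Injective σ) ≤
        ∑ i, ∑ j, ind (i ≠ j ∧ σ i = σ j) := by
      intro σ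
      refine le_trans (ind_mono ?_) ((ind_exists (fun i => ∃ j, i ≠ j ∧ σ i = σ j)).trans
        (Finset.sum_le_sum fun i _ => ind_exists _))
      intro h
      rw [Injective] at h
      push Not at h
      obtain ⟨i, j, he, hne⟩ := h
      exact ⟨i, j, hne, he⟩
    calc (n : ℝ) * ∑ σ : K d w → Fin n, ind (¬ Injective σ)
        ≤ n * ∑ σ : K d w → Fin n, ∑ i, ∑ j, ind (i ≠ j ∧ σ i = σ j) :=
          mul_le_mul_of_nonneg_left (Finset.sum_le_sum fun σ _ => hp σ) hn'.le
      _ = ∑ i : K d w, ∑ j : K d w, n * ∑ σ : K d w → Fin n, ind (i ≠ j ∧ σ i = σ j) := by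
          rw [Finset.sum_comm, Finset.mul_sum]
          refine Finset.sum_congr rfl fun l _ => ?_
          rw [Finset.sum_comm, Finset.mul_sum]
      _ ≤ ∑ _i : K d w, ∑ _j : K d w, (Fintype.card (K d w → Fin n) : ℝ) := by
          refine Finset.sum_le_sum fun i _ => Finset.sum_le_sum fun j _ => ?_
          by_cases hij : i = j
          · rw [Finset.sum_congr rfl fun σ _ => ind_false (P := i ≠ j ∧ σ i = σ j)
              (fun h => h.1 hij)]
            simp
          · have := count_update_le i (fun σ : K d w → Fin n => i ≠ j ∧ σ i = σ j) 1 (by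
              intro σ
              have : ∀ a, ind (i ≠ j ∧ update σ i a i = update σ i a j)
                  = if a = σ j then (1 : ℝ) else 0 := by
                intro a
                rw [update_self, update_of_ne (Ne.symm hij)]
                by_cases h : a = σ j
                · rw [if_pos h, ind_true ⟨hij, h⟩]
                · rw [if_neg h, ind_false fun h' => h h'.2]
              rw [Finset.sum_congr rfl fun a _ => this a, Finset.sum_ite_eq']
              simp)
            simpa using this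
      _ = (d * w) ^ 2 * Fintype.card (K d w → Fin n) := by
          simp only [Finset.sum_const, Finset.card_univ, nsmul_eq_mul, Fintype.card_prod,
            Fintype.card_fin]
          push_cast; ring
  have h2 : ∀ θ : Th d w n, ind (¬ (Injective θ.1 ∧ Injective θ.2))
      ≤ ind (¬ Injective θ.1) + ind (¬ Injective θ.2) := by
    intro θ
    refine le_trans (ind_mono ?_) (ind_or _ _)
    tauto
  have h3 : ∑ θ : Th d w n, ind (¬ Injective θ.1)
      = (∑ σ : K d w → Fin n, ind (¬ Injective σ)) * Fintype.card (K d w → Fin n) := by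
    rw [Fintype.sum_prod_type, Finset.sum_mul]
    refine Finset.sum_congr rfl fun σ _ => ?_
    simp [mul_comm]
  have h4 : ∑ θ : Th d w n, ind (¬ Injective θ.2)
      = (∑ σ : K d w → Fin n, ind (¬ Injective σ)) * Fintype.card (K d w → Fin n) := by
    rw [Fintype.sum_prod_type]
    simp [mul_comm]
  have h5 : (Fintype.card (Th d w n) : ℝ)
      = Fintype.card (K d w → Fin n) * Fintype.card (K d w → Fin n) := by
    rw [Fintype.card_prod]; push_cast; ring
  calc (n : ℝ) * ∑ θ : Th d w n, ind (¬ (Injective θ.1 ∧ Injective θ.2))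
      ≤ n * ∑ θ : Th d w n, (ind (¬ Injective θ.1) + ind (¬ Injective θ.2)) :=
        mul_le_mul_of_nonneg_left (Finset.sum_le_sum fun θ _ => h2 θ) hn'.le
    _ = 2 * ((n * ∑ σ : K d w → Fin n, ind (¬ Injective σ))
        * Fintype.card (K d w → Fin n)) := by
        rw [Finset.sum_add_distrib, h3, h4]; ring
    _ ≤ 2 * ((d * w) ^ 2 * Fintype.card (K d w → Fin n) * Fintype.card (K d w → Fin n)) := by
        have := mul_le_mul_of_nonneg_right h1
          (by positivity : (0 : ℝ) ≤ Fintype.card (K d w → Fin n))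
        linarith
    _ = 2 * (d * w) ^ 2 * Fintype.card (Th d w n) := by rw [h5]; ring

end

end Pool.Agent.H525R5.Corr
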