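import Pool.Agent.H525R5.Corr.Latent

/-!
# Sampling correctors for independence
-/

namespace Pool.Agent.H525R5.Corr

open Finset Function MeasureTheory
open scoped Classical

noncomputable section

/-- `q` is a probability vector. -/
def IsProb {α : Type} [Fintype α] (q : α → ℝ) : Prop := (∀ a, 0 ≤ q a) ∧ ∑ a, q a = 1

/-- the probabilities of the points under a distribution `p` on the square -/
def vec {n : ℕ} (p : PMF (Pt n)) : Pt n → ℝ := fun s => (p s).toReal

/-- The total variation distance of `p` and `q` is at most `e`. -/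
def TVLe {n : ℕ} (p q : Pt n → ℝ) (e : ℝ) : Prop :=
  ∀ A : Finset (Pt n), ∑ s ∈ A, p s - ∑ s ∈ A, q s ≤ e

/-- `q` is a product distribution. -/
def IsProduct {n : ℕ} (q : Pt n → ℝ) : Prop :=
  ∃ a b : Fin n → ℝ, IsProb a ∧ IsProb b ∧ ∀ x y, q (x, y) = a x * b y

/-- `p` is `ε`-close to independent. -/
def Admissible {n : ℕ} (ε : ℝ) (p : PMF (Pt n)) : Prop :=
  ∃ q : Pt n → ℝ, IsProduct q ∧ TVLe (vec p) q ε

/-- A corrector: a randomised procedure (`Ω`, `μ`: its internal randomness) with access to a
sequence of samples.  For its `t`-th output it reads the next `need t` samples; the output, and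
the number of samples read, depend on the internal randomness and on the samples read so far
only. -/
structure Corrector (n : ℕ) where
  Ω : Type
  [mΩ : MeasurableSpace Ω]
  μ : Measure Ω
  [pμ : IsProbabilityMeasure μ]
  need : ℕ → Ω × (ℕ → Pt n) → ℕ
  out : ℕ → Ω × (ℕ → Pt n) → Pt n
  need_meas : ∀ t, Measurable (need t)
  out_meas : ∀ t, Measurable (out t)
  adapted : ∀ t ω s s', (∀ i < ∑ j ∈ range (t + 1), need j (ω, s), s i = s' i) →
    (∀ j ≤ t, need j (ω, s') = need j (ω, s)) ∧ out t (ω, s') = out t (ω, s)

attribute [instance] Corrector.mΩ Corrector.pμ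

/-- The probability space of a corrector which receives independent samples from `p`. -/
def Corrector.law {n : ℕ} (K : Corrector n) (p : PMF (Pt n)) :
    Measure (K.Ω × (ℕ → Pt n)) :=
  K.μ.prod (Measure.infinitePi fun _ : ℕ => p.toMeasure)

instance {n : ℕ} (K : Corrector n) (p : PMF (Pt n)) : IsProbabilityMeasure (K.law p) := by
  unfold Corrector.law; infer_instance

/-- For every `ε`-close to independent `p`: there is a random distribution `D` such that the
outputs are independent draws from `D` (given `D`) and, with probability at least `1 - δ`, `D` is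
a product distribution with total variation distance at most `C * ε` to `p`. -/
def Corrector.Corrects {n : ℕ} (K : Corrector n) (C δ ε : ℝ) : Prop :=
  ∀ p : PMF (Pt n), Admissible ε p → ∃ D : K.Ω × (ℕ → Pt n) → Pt n → ℝ,
    Measurable D ∧ (∀ z, IsProb (D z)) ∧
    (∀ (T : ℕ) (o : ℕ → Pt n) (B : Set (Pt n → ℝ)), MeasurableSet B →
      K.law p {z | D z ∈ B ∧ ∀ t < T, K.out t z = o t} =
        ∫⁻ z in {z | D z ∈ B}, ∏ t ∈ range T, ENNReal.ofReal (D z (o t)) ∂(K.law p)) ∧
    ENNReal.ofReal (1 - δ) ≤
      K.law p {z | IsProduct (D z) ∧ TVLe (vec p) (D z) (C * ε)}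

/-- For every `ε`-close to independent `p` and every `t`, the expected number of samples consumed
for the `t`-th output is at most `r`. -/
def Corrector.RateLe {n : ℕ} (K : Corrector n) (ε r : ℝ) : Prop :=
  ∀ p : PMF (Pt n), Admissible ε p → ∀ t,
    ∫⁻ z, (K.need t z : ENNReal) ∂(K.law p) ≤ ENNReal.ofReal r

/-! ### Finite-dimensional probabilities -/

lemma cyl_one {A : Type} [Fintype A] [MeasurableSpace A] [MeasurableSingletonClass A]
    (p : PMF A) (L : ℕ) (v : Fin L → A) :
    Measure.infinitePi (fun _ : ℕ => p.toMeasure) {s | ∀ l : Fin L, s l = v l}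
      = ∏ l, p (v l) := by
  have h : {s : ℕ → A | ∀ l : Fin L, s l = v l}
      = Set.pi (range L : Finset ℕ) (fun i => if h : i < L then {v ⟨i, h⟩} else Set.univ) := by
    ext s
    simp only [Set.mem_ofPred_eq, Set.mem_pi, Finset.coe_range, Set.mem_Iio]
    constructor
    · intro hs i hi
      rw [dif_pos hi]; exact hs ⟨i, hi⟩
    · intro hs l
      have := hs l l.2
      rw [dif_pos l.2] at this
      exact this
  rw [h, Measure.infinitePi_pi]
  · rw [Finset.prod_range]
    refine Finset.prod_congr rfl fun l _ => ?_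
    rw [dif_pos l.2, PMF.toMeasure_apply_singleton _ _ (measurableSet_singleton _)]
  · intro i _
    split_ifs
    · exact measurableSet_singleton _
    · exact MeasurableSet.univ

lemma meas_cyl {A : Type} [MeasurableSpace A] [MeasurableSingletonClass A]
    (L : ℕ) (v : Fin L → A) : MeasurableSet {s : ℕ → A | ∀ l : Fin L, s l = v l} := by
  have : {s : ℕ → A | ∀ l : Fin L, s l = v l} = ⋂ l : Fin L, {s | s l = v l} := by
    ext s; simp
  rw [this]
  refine MeasurableSet.iInter fun l => ?_
  have hm : Measurable (fun s : ℕ → A => s l) := measurable_pi_apply (l : ℕ)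
  exact hm (measurableSet_singleton (v l))

lemma cyl {A : Type} [Fintype A] [MeasurableSpace A] [MeasurableSingletonClass A]
    (p : PMF A) (L : ℕ) (E : (Fin L → A) → Prop) :
    Measure.infinitePi (fun _ : ℕ => p.toMeasure) {s | E (fun l : Fin L => s l)}
      = ∑ v ∈ univ.filter E, ∏ l, p (v l) := by
  have h : {s : ℕ → A | E (fun l : Fin L => s l)}
      = ⋃ v ∈ univ.filter E, {s | ∀ l : Fin L, s l = v l} := by
    ext s
    simp only [Set.mem_ofPred_eq, Set.mem_iUnion, Finset.mem_filter, Finset.mem_univ, true_and,
      exists_prop]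
    constructor
    · intro hs
      exact ⟨fun l => s l, hs, fun l => rfl⟩
    · rintro ⟨v, hv, hs⟩
      have : (fun l : Fin L => s l) = v := funext hs
      rw [this]; exact hv
  rw [h, measure_biUnion_finset]
  · exact Finset.sum_congr rfl fun v _ => cyl_one p L v
  · intro v _ v' _ hne
    refine Set.disjoint_left.mpr ?_
    intro s hs hs'
    apply hne
    funext l
    exact (hs l).symm.trans (hs' l)
  · intro v _
    exact meas_cyl L v

end

end Pool.Agent.H525R5.Corr
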