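import Pool.Agent.H525R5.Corr.Model

/-!
# A corrector with rate `2 * (1 - δ)`
-/

namespace Pool.Agent.H525R5.Corr

open Finset Function MeasureTheory
open scoped Classical ENNReal

noncomputable section

variable {n : ℕ}

/-- marginals -/
def m1 (p : PMF (Pt n)) : Fin n → ℝ := fun x => ∑ y, vec p (x, y)
def m2 (p : PMF (Pt n)) : Fin n → ℝ := fun y => ∑ x, vec p (x, y)

lemma vec_nonneg (p : PMF (Pt n)) (s : Pt n) : 0 ≤ vec p s := ENNReal.toReal_nonneg

lemma sum_vec (p : PMF (Pt n)) : ∑ s, vec p s = 1 := by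
  unfold vec
  have h := p.tsum_coe
  rw [tsum_fintype] at h
  rw [← ENNReal.toReal_sum (fun s _ => PMF.apply_ne_top _ _), h]
  simp

lemma isProb_m1 (p : PMF (Pt n)) : IsProb (m1 p) := by
  refine ⟨fun x => Finset.sum_nonneg fun y _ => vec_nonneg p _, ?_⟩
  unfold m1
  rw [← sum_vec p, Fintype.sum_prod_type]

lemma isProb_m2 (p : PMF (Pt n)) : IsProb (m2 p) := by
  refine ⟨fun x => Finset.sum_nonneg fun y _ => vec_nonneg p _, ?_⟩
  unfold m2
  rw [← sum_vec p, Fintype.sum_prod_type, Finset.sum_comm]

/-- the product of the marginals is `3 ε`-close -/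
lemma close3 (p : PMF (Pt n)) (ε : ℝ) (hp : Admissible ε p) :
    TVLe (vec p) (fun s => m1 p s.1 * m2 p s.2) (3 * ε) := by
  obtain ⟨q, ⟨a, b, ⟨ha, ha1⟩, ⟨hb, hb1⟩, hab⟩, hq⟩ := hp
  have hqs : ∀ s : Pt n, q s = a s.1 * b s.2 := fun s => hab s.1 s.2
  have hq1 : ∑ s, q s = 1 := by
    rw [Finset.sum_congr rfl fun s _ => hqs s, Fintype.sum_prod_type]
    simp only [← Finset.mul_sum, hb1, mul_one, ha1]
  -- the reverse inequality
  have hrev : ∀ A : Finset (Pt n), ∑ s ∈ A, q s - ∑ s ∈ A, vec p s ≤ ε := by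
    intro A
    have h1 := hq Aᶜ
    have h2 := Finset.sum_add_sum_compl A q
    have h3 := Finset.sum_add_sum_compl A (vec p)
    rw [sum_vec p] at h3
    linarith
  have hX : ∀ X : Finset (Fin n), ∑ x ∈ X, (a x - m1 p x) ≤ ε := by
    intro X
    have h := hrev (X ×ˢ (univ : Finset (Fin n)))
    rw [Finset.sum_product, Finset.sum_product] at h
    rw [Finset.sum_sub_distrib]
    have e1 : ∀ x, ∑ y, q (x, y) = a x := by
      intro x
      rw [Finset.sum_congr rfl fun y _ => hab x y, ← Finset.mul_sum, hb1, mul_one]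
    rw [Finset.sum_congr rfl fun x _ => e1 x] at h
    exact h
  have hY : ∀ Y : Finset (Fin n), ∑ y ∈ Y, (b y - m2 p y) ≤ ε := by
    intro Y
    have h := hrev ((univ : Finset (Fin n)) ×ˢ Y)
    rw [Finset.sum_product_right, Finset.sum_product_right] at h
    rw [Finset.sum_sub_distrib]
    have e1 : ∀ y, ∑ x, q (x, y) = b y := by
      intro y
      rw [Finset.sum_congr rfl fun x _ => hab x y, ← Finset.sum_mul, ha1, one_mul]
    rw [Finset.sum_congr rfl fun x _ => e1 x] at h
    exact h
  have hXp : ∑ x, max (a x - m1 p x) 0 ≤ ε := by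
    have := hX (univ.filter fun x => 0 ≤ a x - m1 p x)
    rw [Finset.sum_filter] at this
    refine le_trans (le_of_eq ?_) this
    refine Finset.sum_congr rfl fun c _ => ?_
    by_cases h : 0 ≤ a c - m1 p c
    · rw [if_pos h, max_eq_left h]
    · rw [if_neg h, max_eq_right (by linarith)]
  have hYp : ∑ x, max (b x - m2 p x) 0 ≤ ε := by
    have := hY (univ.filter fun x => 0 ≤ b x - m2 p x)
    rw [Finset.sum_filter] at this
    refine le_trans (le_of_eq ?_) this
    refine Finset.sum_congr rfl fun c _ => ?_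
    by_cases h : 0 ≤ b c - m2 p c
    · rw [if_pos h, max_eq_left h]
    · rw [if_neg h, max_eq_right (by linarith)]
  intro A
  have t1 := hq A
  have t2 : ∑ s ∈ A, (a s.1 - m1 p s.1) * b s.2 ≤ ε := by
    calc ∑ s ∈ A, (a s.1 - m1 p s.1) * b s.2
        ≤ ∑ s ∈ A, max (a s.1 - m1 p s.1) 0 * b s.2 :=
          Finset.sum_le_sum fun s _ => mul_le_mul_of_nonneg_right (le_max_left _ _) (hb _)
      _ ≤ ∑ s : Pt n, max (a s.1 - m1 p s.1) 0 * b s.2 :=
          Finset.sum_le_sum_of_subset_of_nonneg (Finset.subset_univ _) fun s _ _ =>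
            mul_nonneg (le_max_right _ _) (hb _)
      _ = ∑ x, max (a x - m1 p x) 0 := by
          rw [Fintype.sum_prod_type]
          refine Finset.sum_congr rfl fun x _ => ?_
          simp only
          rw [← Finset.mul_sum, hb1, mul_one]
      _ ≤ ε := hXp
  have t3 : ∑ s ∈ A, m1 p s.1 * (b s.2 - m2 p s.2) ≤ ε := by
    calc ∑ s ∈ A, m1 p s.1 * (b s.2 - m2 p s.2)
        ≤ ∑ s ∈ A, m1 p s.1 * max (b s.2 - m2 p s.2) 0 :=
          Finset.sum_le_sum fun s _ => mul_le_mul_of_nonneg_left (le_max_left _ _)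
            ((isProb_m1 p).1 _)
      _ ≤ ∑ s : Pt n, m1 p s.1 * max (b s.2 - m2 p s.2) 0 :=
          Finset.sum_le_sum_of_subset_of_nonneg (Finset.subset_univ _) fun s _ _ =>
            mul_nonneg ((isProb_m1 p).1 _) (le_max_right _ _)
      _ = ∑ x, max (b x - m2 p x) 0 := by
          rw [Fintype.sum_prod_type, Finset.sum_comm]
          refine Finset.sum_congr rfl fun x _ => ?_
          simp only
          rw [← Finset.sum_mul, (isProb_m1 p).2, one_mul]
      _ ≤ ε := hYp
  have t4 : ∑ s ∈ A, q s - ∑ s ∈ A, m1 p s.1 * m2 p s.2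
      = ∑ s ∈ A, (a s.1 - m1 p s.1) * b s.2 + ∑ s ∈ A, m1 p s.1 * (b s.2 - m2 p s.2) := by
    rw [← Finset.sum_sub_distrib, ← Finset.sum_add_distrib]
    refine Finset.sum_congr rfl fun s _ => ?_
    rw [hqs]; ring
  linarith

lemma toMeas1 (p : PMF (Pt n)) (x : Fin n) :
    p.toMeasure {a | a.1 = x} = ENNReal.ofReal (m1 p x) := by
  rw [PMF.toMeasure_apply_fintype, Fintype.sum_prod_type, Finset.sum_eq_single x]
  · unfold m1 vec
    rw [ENNReal.ofReal_sum_of_nonneg (fun _ _ => ENNReal.toReal_nonneg)]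
    refine Finset.sum_congr rfl fun y _ => ?_
    rw [ENNReal.ofReal_toReal (PMF.apply_ne_top _ _)]
    exact Set.indicator_of_mem (by simp) _
  · intro b _ hb
    exact Finset.sum_eq_zero fun y _ => Set.indicator_of_notMem (by simpa using hb) _
  · simp

lemma toMeas2 (p : PMF (Pt n)) (y : Fin n) :
    p.toMeasure {a | a.2 = y} = ENNReal.ofReal (m2 p y) := by
  rw [PMF.toMeasure_apply_fintype, Fintype.sum_prod_type, Finset.sum_comm,
    Finset.sum_eq_single y]
  · unfold m2 vec
    rw [ENNReal.ofReal_sum_of_nonneg (fun _ _ => ENNReal.toReal_nonneg)]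
    refine Finset.sum_congr rfl fun y _ => ?_
    rw [ENNReal.ofReal_toReal (PMF.apply_ne_top _ _)]
    exact Set.indicator_of_mem (by simp) _
  · intro b _ hb
    exact Finset.sum_eq_zero fun y _ => Set.indicator_of_notMem (by simpa using hb) _
  · simp

/-- the law of the outputs of the two-sample corrector -/
lemma pairs_law (p : PMF (Pt n)) (T : ℕ) (o : ℕ → Pt n) :
    Measure.infinitePi (fun _ : ℕ => p.toMeasure)
      {s | ∀ t < T, ((s (2 * t)).1, (s (2 * t + 1)).2) = o t}
      = ∏ t ∈ range T, ENNReal.ofReal (m1 p (o t).1 * m2 p (o t).2) := by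
  have h : {s : ℕ → Pt n | ∀ t < T, ((s (2 * t)).1, (s (2 * t + 1)).2) = o t}
      = Set.pi (range (2 * T) : Finset ℕ)
        (fun i => if i % 2 = 0 then {a : Pt n | a.1 = (o (i / 2)).1}
          else {a | a.2 = (o (i / 2)).2}) := by
    ext s
    simp only [Set.mem_ofPred_eq, Set.mem_pi, Finset.coe_range, Set.mem_Iio]
    constructor
    · intro hs i hi
      have h1 := hs (i / 2) (by omega)
      rcases Nat.mod_two_eq_zero_or_one i with h2 | h2
      · rw [if_pos h2]
        have h3 : 2 * (i / 2) = i := by omega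
        rw [← h1, h3]
        rfl
      · rw [if_neg (by omega)]
        have h3 : 2 * (i / 2) + 1 = i := by omega
        show (s i).2 = _
        rw [← h1, h3]
    · intro hs t ht
      have h1 := hs (2 * t) (by omega)
      have h2 := hs (2 * t + 1) (by omega)
      rw [if_pos (by omega)] at h1
      rw [if_neg (by omega)] at h2
      have e1 : 2 * t / 2 = t := by omega
      have e2 : (2 * t + 1) / 2 = t := by omega
      rw [e1] at h1
      rw [e2] at h2
      exact Prod.ext h1 h2
  rw [h, Measure.infinitePi_pi]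
  · clear h
    induction T with
    | zero => simp
    | succ T ih =>
      rw [show 2 * (T + 1) = 2 * T + 1 + 1 by ring, Finset.prod_range_succ,
        Finset.prod_range_succ, Finset.prod_range_succ, ih, mul_assoc]
      congr 1
      rw [if_pos (by omega), if_neg (by omega), toMeas1, toMeas2]
      have e1 : 2 * T / 2 = T := by omega
      have e2 : (2 * T + 1) / 2 = T := by omega
      rw [e1, e2, ENNReal.ofReal_mul ((isProb_m1 p).1 _)]
  · intro i _
    exact MeasurableSet.of_discrete

/-- the internal randomness: give up with probability `δ` -/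
def coin (δ : ℝ) : Measure Bool :=
  ENNReal.ofReal δ • Measure.dirac false + ENNReal.ofReal (1 - δ) • Measure.dirac true

lemma coin_prob (δ : ℝ) (h0 : 0 ≤ δ) (h1 : δ ≤ 1) : IsProbabilityMeasure (coin δ) := by
  constructor
  unfold coin
  simp only [Measure.coe_add, Measure.coe_smul, Pi.add_apply, Pi.smul_apply, measure_univ,
    smul_eq_mul, mul_one]
  rw [← ENNReal.ofReal_add h0 (by linarith)]
  simp

/-- the number of samples read by the corrector `simple` -/
def needS (_t : ℕ) (z : Bool × (ℕ → Pt n)) : ℕ := if z.1 then 2 else 0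

/-- the outputs of the corrector `simple` -/
def outS (x0 : Pt n) (t : ℕ) (z : Bool × (ℕ → Pt n)) : Pt n :=
  if z.1 then ((z.2 (2 * t)).1, (z.2 (2 * t + 1)).2) else x0

lemma needS_meas (t : ℕ) : Measurable (needS (n := n) t) := by
  refine Measurable.ite ?_ measurable_const measurable_const
  exact measurable_fst (measurableSet_singleton true)

lemma outS_meas (x0 : Pt n) (t : ℕ) : Measurable (outS x0 t) := by
  refine Measurable.ite ?_ ?_ measurable_const
  · exact measurable_fst (measurableSet_singleton true)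
  · refine Measurable.prodMk ?_ ?_
    · exact measurable_fst.comp ((measurable_pi_apply (2 * t)).comp measurable_snd)
    · exact measurable_snd.comp ((measurable_pi_apply (2 * t + 1)).comp measurable_snd)

/-- With probability `δ` all outputs are one fixed point and nothing is read; otherwise every
output consists of the first coordinate of one sample and the second coordinate of another. -/
def simple (δ : ℝ) (h0 : 0 ≤ δ) (h1 : δ ≤ 1) (x0 : Pt n) : Corrector n where
  Ω := Bool
  μ := coin δ
  pμ := coin_prob δ h0 h1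
  need := needS
  out := outS x0
  need_meas := needS_meas
  out_meas := outS_meas x0
  adapted := by
    intro t ω s s' h
    refine ⟨fun j _ => rfl, ?_⟩
    cases ω
    · rfl
    · have h2 : ∑ j ∈ range (t + 1), needS j ((true, s) : Bool × (ℕ → Pt n))
          = 2 * (t + 1) := by simp [needS, mul_comm]
      have h3 : ∀ i < 2 * (t + 1), s i = s' i := by
        intro i hi
        exact h i (by rw [h2]; exact hi)
      unfold outS
      simp only [if_true]
      rw [h3 (2 * t) (by omega), h3 (2 * t + 1) (by omega)]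

lemma lintegral_coin (δ : ℝ) (P : Measure (ℕ → Pt n)) [IsProbabilityMeasure P]
    [IsProbabilityMeasure (coin δ)]
    (f : Bool × (ℕ → Pt n) → ℝ≥0∞) (hf : Measurable f) :
    ∫⁻ z, f z ∂((coin δ).prod P) = ENNReal.ofReal δ * ∫⁻ s, f (false, s) ∂P
      + ENNReal.ofReal (1 - δ) * ∫⁻ s, f (true, s) ∂P := by
  rw [lintegral_prod _ hf.aemeasurable]
  unfold coin
  rw [lintegral_add_measure, lintegral_smul_measure, lintegral_smul_measure,
    lintegral_dirac, lintegral_dirac]
  rfl

/-- the point mass -/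
def Df (x0 : Pt n) : Pt n → ℝ := fun s => if s = x0 then 1 else 0

/-- the product of the marginals -/
def Dt (p : PMF (Pt n)) : Pt n → ℝ := fun s => m1 p s.1 * m2 p s.2

/-- the distribution of the outputs of `simple` -/
def DD (x0 : Pt n) (p : PMF (Pt n)) (z : Bool × (ℕ → Pt n)) : Pt n → ℝ :=
  if z.1 then Dt p else Df x0

lemma DD_meas (x0 : Pt n) (p : PMF (Pt n)) : Measurable (DD x0 p) := by
  refine Measurable.ite ?_ measurable_const measurable_const
  exact measurable_fst (measurableSet_singleton true)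

lemma simple_iid (δ : ℝ) [IsProbabilityMeasure (coin δ)] (x0 : Pt n) (p : PMF (Pt n)) (T : ℕ)
    (o : ℕ → Pt n) (B : Set (Pt n → ℝ)) (hB : MeasurableSet B) :
    ((coin δ).prod (Measure.infinitePi fun _ : ℕ => p.toMeasure))
        {z | DD x0 p z ∈ B ∧ ∀ t < T, outS x0 t z = o t} =
      ∫⁻ z in {z | DD x0 p z ∈ B}, ∏ t ∈ range T, ENNReal.ofReal (DD x0 p z (o t))
        ∂((coin δ).prod (Measure.infinitePi fun _ : ℕ => p.toMeasure)) := by
  have hz : MeasurableSet {z | DD x0 p z ∈ B} := DD_meas x0 p hB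
  have hE : MeasurableSet {z | DD x0 p z ∈ B ∧ ∀ t < T, outS x0 t z = o t} := by
    refine hz.inter ?_
    have : {z | ∀ t < T, outS x0 t z = o t}
        = ⋂ t, ⋂ (_ : t < T), {z | outS x0 t z = o t} := by
      ext z; simp
    show MeasurableSet {z | ∀ t < T, outS x0 t z = o t}
    rw [this]
    refine MeasurableSet.iInter fun t => MeasurableSet.iInter fun _ => ?_
    exact outS_meas x0 t (measurableSet_singleton (o t))
  have hfm : Measurable fun z => ∏ t ∈ range T, ENNReal.ofReal (DD x0 p z (o t)) := by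
    refine Finset.measurable_prod _ fun t _ => ?_
    have : Measurable fun z => DD x0 p z (o t) := (measurable_pi_apply (o t)).comp (DD_meas x0 p)
    exact this.ennreal_ofReal
  rw [← lintegral_indicator_one hE, ← lintegral_indicator hz,
    lintegral_coin δ _ _ (measurable_one.indicator hE), lintegral_coin δ _ _
    (hfm.indicator hz)]
  congr 1
  · congr 1
    -- the failing run
    by_cases hf : Df x0 ∈ B
    · have e1 : ∀ s : ℕ → Pt n, Set.indicator {z | DD x0 p z ∈ B}
          (fun z => ∏ t ∈ range T, ENNReal.ofReal (DD x0 p z (o t))) (false, s)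
          = ∏ t ∈ range T, ENNReal.ofReal (Df x0 (o t)) := by
        intro s
        rw [Set.indicator_of_mem (show (false, s) ∈ {z | DD x0 p z ∈ B} from hf)]
        rfl
      simp only [e1]
      rw [lintegral_const, measure_univ, mul_one]
      by_cases ho : ∀ t < T, x0 = o t
      · have e2 : ∀ s : ℕ → Pt n, Set.indicator
            {z | DD x0 p z ∈ B ∧ ∀ t < T, outS x0 t z = o t}
            (1 : Bool × (ℕ → Pt n) → ℝ≥0∞) (false, s) = 1 := by
          intro s
          rw [Set.indicator_of_mem]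
          · rfl
          · exact ⟨hf, ho⟩
        simp only [e2]
        rw [lintegral_const, measure_univ, mul_one]
        symm
        refine Finset.prod_eq_one fun t ht => ?_
        unfold Df
        rw [if_pos (ho t (Finset.mem_range.mp ht)).symm]
        simp
      · have e2 : ∀ s : ℕ → Pt n, Set.indicator
            {z | DD x0 p z ∈ B ∧ ∀ t < T, outS x0 t z = o t}
            (1 : Bool × (ℕ → Pt n) → ℝ≥0∞) (false, s) = 0 := by
          intro s
          refine Set.indicator_of_notMem ?_ _
          rintro ⟨-, h⟩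
          exact ho h
        simp only [e2]
        rw [lintegral_const, zero_mul]
        push Not at ho
        obtain ⟨t, ht, hne⟩ := ho
        symm
        refine Finset.prod_eq_zero (Finset.mem_range.mpr ht) ?_
        unfold Df
        rw [if_neg (Ne.symm hne)]
        simp
    · have e1 : ∀ s : ℕ → Pt n, Set.indicator {z | DD x0 p z ∈ B}
          (fun z => ∏ t ∈ range T, ENNReal.ofReal (DD x0 p z (o t))) (false, s) = 0 := fun s =>
        Set.indicator_of_notMem (show (false, s) ∉ {z | DD x0 p z ∈ B} from hf) _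
      have e2 : ∀ s : ℕ → Pt n, Set.indicator
            {z | DD x0 p z ∈ B ∧ ∀ t < T, outS x0 t z = o t}
            (1 : Bool × (ℕ → Pt n) → ℝ≥0∞) (false, s) = 0 := by
        intro s
        refine Set.indicator_of_notMem ?_ _
        rintro ⟨h, -⟩
        exact hf h
      simp only [e1, e2]
  · congr 1
    by_cases hf : Dt p ∈ B
    · have e1 : ∀ s : ℕ → Pt n, Set.indicator {z | DD x0 p z ∈ B}
          (fun z => ∏ t ∈ range T, ENNReal.ofReal (DD x0 p z (o t))) (true, s)
          = ∏ t ∈ range T, ENNReal.ofReal (Dt p (o t)) := by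
        intro s
        rw [Set.indicator_of_mem (show (true, s) ∈ {z | DD x0 p z ∈ B} from hf)]
        rfl
      simp only [e1]
      rw [lintegral_const, measure_univ, mul_one]
      have e2 : ∀ s : ℕ → Pt n, Set.indicator
            {z | DD x0 p z ∈ B ∧ ∀ t < T, outS x0 t z = o t}
            (1 : Bool × (ℕ → Pt n) → ℝ≥0∞) (true, s)
          = Set.indicator {s : ℕ → Pt n | ∀ t < T,
            ((s (2 * t)).1, (s (2 * t + 1)).2) = o t} (1 : (ℕ → Pt n) → ℝ≥0∞) s := by
        intro s
        by_cases hs : ∀ t < T, ((s (2 * t)).1, (s (2 * t + 1)).2) = o t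
        · rw [Set.indicator_of_mem (show s ∈ {s : ℕ → Pt n | ∀ t < T,
            ((s (2 * t)).1, (s (2 * t + 1)).2) = o t} from hs), Set.indicator_of_mem]
          · rfl
          · exact ⟨hf, hs⟩
        · rw [Set.indicator_of_notMem (show s ∉ {s : ℕ → Pt n | ∀ t < T,
            ((s (2 * t)).1, (s (2 * t + 1)).2) = o t} from hs), Set.indicator_of_notMem]
          rintro ⟨-, h⟩
          exact hs h
      simp only [e2]
      rw [lintegral_indicator_one, pairs_law]
      · rfl
      have : {s : ℕ → Pt n | ∀ t < T, ((s (2 * t)).1, (s (2 * t + 1)).2) = o t}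
          = ⋂ t, ⋂ (_ : t < T), {s | ((s (2 * t)).1, (s (2 * t + 1)).2) = o t} := by
        ext z; simp
      rw [this]
      refine MeasurableSet.iInter fun t => MeasurableSet.iInter fun _ => ?_
      have hm : Measurable fun s : ℕ → Pt n => ((s (2 * t)).1, (s (2 * t + 1)).2) := by
        refine Measurable.prodMk ?_ ?_
        · exact measurable_fst.comp (measurable_pi_apply (2 * t))
        · exact measurable_snd.comp (measurable_pi_apply (2 * t + 1))
      exact hm (measurableSet_singleton (o t))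
    · have e1 : ∀ s : ℕ → Pt n, Set.indicator {z | DD x0 p z ∈ B}
          (fun z => ∏ t ∈ range T, ENNReal.ofReal (DD x0 p z (o t))) (true, s) = 0 := fun s =>
        Set.indicator_of_notMem (show (true, s) ∉ {z | DD x0 p z ∈ B} from hf) _
      have e2 : ∀ s : ℕ → Pt n, Set.indicator
            {z | DD x0 p z ∈ B ∧ ∀ t < T, outS x0 t z = o t}
            (1 : Bool × (ℕ → Pt n) → ℝ≥0∞) (true, s) = 0 := by
        intro s
        refine Set.indicator_of_notMem ?_ _
        rintro ⟨h, -⟩
        exact hf h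
      simp only [e1, e2]

lemma simple_good (δ ε : ℝ) [IsProbabilityMeasure (coin δ)] (x0 : Pt n) (p : PMF (Pt n))
    (hp : Admissible ε p) :
    ENNReal.ofReal (1 - δ) ≤ ((coin δ).prod (Measure.infinitePi fun _ : ℕ => p.toMeasure))
      {z | IsProduct (DD x0 p z) ∧ TVLe (vec p) (DD x0 p z) (3 * ε)} := by
  have hsub : {z : Bool × (ℕ → Pt n) | z.1 = true} ⊆
      {z | IsProduct (DD x0 p z) ∧ TVLe (vec p) (DD x0 p z) (3 * ε)} := by
    rintro ⟨b, s⟩ hb
    have hb' : b = true := hb
    subst hb'
    exact ⟨⟨m1 p, m2 p, isProb_m1 p, isProb_m2 p, fun x y => rfl⟩, close3 p ε hp⟩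
  refine le_trans ?_ (measure_mono hsub)
  have hm : MeasurableSet {z : Bool × (ℕ → Pt n) | z.1 = true} :=
    measurable_fst (measurableSet_singleton true)
  rw [← lintegral_indicator_one hm, lintegral_coin δ _ _ (measurable_one.indicator hm)]
  have e1 : ∀ s : ℕ → Pt n, Set.indicator {z : Bool × (ℕ → Pt n) | z.1 = true}
      (1 : Bool × (ℕ → Pt n) → ℝ≥0∞) (true, s) = 1 := by
    intro s
    rw [Set.indicator_of_mem (show (true, s) ∈ {z : Bool × (ℕ → Pt n) | z.1 = true} from rfl)]
    rfl
  simp only [e1]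
  rw [lintegral_const, measure_univ, mul_one, mul_one]
  exact le_add_self

lemma simple_rate (δ : ℝ) (h1 : δ ≤ 1) [IsProbabilityMeasure (coin δ)] (p : PMF (Pt n)) (t : ℕ) :
    ∫⁻ z, (needS t z : ℝ≥0∞) ∂((coin δ).prod (Measure.infinitePi fun _ : ℕ => p.toMeasure))
      ≤ ENNReal.ofReal (2 * (1 - δ)) := by
  have hm : Measurable fun z : Bool × (ℕ → Pt n) => ((needS t z : ℕ) : ℝ≥0∞) :=
    (measurable_of_countable (fun m : ℕ => (m : ℝ≥0∞))).comp (needS_meas t)
  rw [lintegral_coin δ _ _ hm]
  have e1 : ∀ s : ℕ → Pt n, ((needS t ((false, s) : Bool × (ℕ → Pt n)) : ℕ) : ℝ≥0∞) = 0 := by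
    intro s; simp [needS]
  have e2 : ∀ s : ℕ → Pt n, ((needS t ((true, s) : Bool × (ℕ → Pt n)) : ℕ) : ℝ≥0∞) = 2 := by
    intro s; simp [needS]
  simp only [e1, e2]
  rw [lintegral_const, lintegral_const, measure_univ, zero_mul, mul_zero, zero_add, mul_one,
    mul_comm (2 : ℝ), ENNReal.ofReal_mul (by linarith)]
  simp

theorem upper (δ ε : ℝ) (h0 : 0 ≤ δ) (h1 : δ ≤ 1) (hn : 0 < n) :
    ∃ M : Corrector n, M.Corrects 3 δ ε ∧ M.RateLe ε (2 * (1 - δ)) := by
  set x0 : Pt n := (⟨0, hn⟩, ⟨0, hn⟩) with hx0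
  have hc := coin_prob δ h0 h1
  refine ⟨simple δ h0 h1 x0, ?_, ?_⟩
  · intro p hp
    refine ⟨DD x0 p, DD_meas x0 p, ?_, ?_, ?_⟩
    · rintro ⟨b, s⟩
      cases b
      · show IsProb (Df x0)
        refine ⟨fun a => by unfold Df; split_ifs <;> norm_num, ?_⟩
        unfold Df; simp
      · show IsProb (Dt p)
        refine ⟨fun a => mul_nonneg ((isProb_m1 p).1 _) ((isProb_m2 p).1 _), ?_⟩
        unfold Dt
        rw [Fintype.sum_prod_type]
        simp only [← Finset.mul_sum, (isProb_m2 p).2, mul_one, (isProb_m1 p).2]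
    · intro T o B hB
      exact simple_iid δ x0 p T o B hB
    · exact simple_good δ ε x0 p hp
  · intro p _ t
    exact simple_rate δ h1 p t

end

end Pool.Agent.H525R5.Corr
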